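import Pool.Agent.Lib.MP_354e85_al.Tarski

/-! Two facts on quotients. -/

namespace RLim

open Pool.Agent.Lib.MP_354e85_al (TarskiLE)

theorem tarski_quotient {G : Type} [Group G] (N : Subgroup G) [N.Normal] {k : ℕ}
    (h : TarskiLE (G ⧸ N) k) : TarskiLE G k := by
  obtain ⟨m, n, hmn, A, B, g, h, h1, h2, h3⟩ := h
  have hlift : ∀ q : G ⧸ N, ∃ x : G, (x : G ⧸ N) = q := fun q => QuotientGroup.mk_surjective q
  choose L hL using hlift
  refine ⟨m, n, hmn, fun i => {x : G | (x : G ⧸ N) ∈ A i}, fun j => {x : G | (x : G ⧸ N) ∈ B j},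
    fun i => L (g i), fun j => L (h j), ?_, ?_, ?_⟩
  · intro x
    have e : ∀ p : Fin m ⊕ Fin n, x ∈ Sum.elim (fun i => {x : G | (x : G ⧸ N) ∈ A i})
        (fun j => {x : G | (x : G ⧸ N) ∈ B j}) p ↔ (x : G ⧸ N) ∈ Sum.elim A B p := by
      rintro (i | j)
      · exact Iff.rfl
      · exact Iff.rfl
    obtain ⟨p, hp1, hp2⟩ := h1 (x : G ⧸ N)
    exact ⟨p, (e p).mpr hp1, fun q hq => hp2 q ((e q).mp hq)⟩
  · intro x
    have e : ∀ i, (L (g i))⁻¹ * x ∈ {x : G | (x : G ⧸ N) ∈ A i} ↔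
        (g i)⁻¹ * (x : G ⧸ N) ∈ A i := by
      intro i
      have : (((L (g i))⁻¹ * x : G) : G ⧸ N) = (g i)⁻¹ * (x : G ⧸ N) := by
        rw [QuotientGroup.mk_mul, QuotientGroup.mk_inv, hL]
      change (((L (g i))⁻¹ * x : G) : G ⧸ N) ∈ A i ↔ _
      rw [this]
    obtain ⟨i, hi1, hi2⟩ := h2 (x : G ⧸ N)
    exact ⟨i, (e i).mpr hi1, fun q hq => hi2 q ((e q).mp hq)⟩
  · intro x
    have e : ∀ j, (L (h j))⁻¹ * x ∈ {x : G | (x : G ⧸ N) ∈ B j} ↔
        (h j)⁻¹ * (x : G ⧸ N) ∈ B j := by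
      intro j
      have : (((L (h j))⁻¹ * x : G) : G ⧸ N) = (h j)⁻¹ * (x : G ⧸ N) := by
        rw [QuotientGroup.mk_mul, QuotientGroup.mk_inv, hL]
      change (((L (h j))⁻¹ * x : G) : G ⧸ N) ∈ B j ↔ _
      rw [this]
    obtain ⟨j, hj1, hj2⟩ := h3 (x : G ⧸ N)
    exact ⟨j, (e j).mpr hj1, fun q hq => hj2 q ((e q).mp hq)⟩

/-- If all quotients are finite, then `G` is residually finite. -/
theorem residuallyFinite_of_chain {G : Type} [Group G] (N : ℕ → Subgroup G)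
    (hnorm : ∀ k, (N k).Normal) (hbot : ⨅ k, N k = ⊥) (hfin : ∀ k, Finite (G ⧸ N k)) :
    Group.ResiduallyFinite G := by
  rw [Group.residuallyFinite_iff_exists_finiteIndex]
  intro g hg
  have h1 : g ∉ ⨅ k, N k := by
    rw [hbot, Subgroup.mem_bot]
    exact hg
  rw [Subgroup.mem_iInf, not_forall] at h1
  obtain ⟨k, hk⟩ := h1
  have := hfin k
  exact ⟨N k, Subgroup.finiteIndex_of_finite_quotient, hk⟩

end RLim
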