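import Mathlib

open MeasureTheory Set

namespace RLim

/-- A probability measure preserving action of `G` on `(Z, μ)`. -/
structure PA (G : Type) [Group G] {Z : Type} [MeasurableSpace Z] (μ : Measure Z) where
  act : G → Z → Z
  one : ∀ z, act 1 z = z
  mul : ∀ g h z, act (g * h) z = act g (act h z)
  mp : ∀ g, MeasurePreserving (act g) μ μ

section defs

variable {G : Type} [Group G] {Z : Type}

/-- A step from `act g z` to `act h z` along an edge of the graphing `E`
(`z ∈ E s` is an edge from `z` to `act s z` with label `s`). -/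
def Step (act : G → Z → Z) (E : G → Set Z) (z : Z) (g h : G) : Prop :=
  ∃ s, (act g z ∈ E s ∧ h = s * g) ∨ (act h z ∈ E s ∧ g = s * h)

/-- `g` and `h` are joined by a path of edges of `E`, read at the base point `z`. -/
def Conn (act : G → Z → Z) (E : G → Set Z) (z : Z) (g h : G) : Prop :=
  Relation.ReflTransGen (Step act E z) g h

/-- The cost of a graphing. -/
noncomputable def cost [MeasurableSpace Z] (μ : Measure Z) (E : G → Set Z) : ENNReal :=
  ∑' g, μ (E g)

/-- `E` generates the whole transformation groupoid. -/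
def Gen [MeasurableSpace Z] (μ : Measure Z) (act : G → Z → Z) (E : G → Set Z) : Prop :=
  ∀ᵐ z ∂μ, ∀ g, Conn act E z 1 g

/-- `E` generates modulo the subgroup `N`. -/
def GenMod [MeasurableSpace Z] (N : Subgroup G) (μ : Measure Z) (act : G → Z → Z)
    (E : G → Set Z) : Prop :=
  ∀ᵐ z ∂μ, ∀ g, ∃ n ∈ N, Conn act E z 1 (n * g)

theorem Step.symm {act : G → Z → Z} {E : G → Set Z} {z : Z} {g h : G} (hs : Step act E z g h) :
    Step act E z h g := by
  obtain ⟨s, hs⟩ := hs
  exact ⟨s, hs.symm⟩

theorem Conn.refl (act : G → Z → Z) (E : G → Set Z) (z : Z) (g : G) : Conn act E z g g :=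
  Relation.ReflTransGen.refl

theorem Conn.trans {act : G → Z → Z} {E : G → Set Z} {z : Z} {g h k : G}
    (h1 : Conn act E z g h) (h2 : Conn act E z h k) : Conn act E z g k :=
  Relation.ReflTransGen.trans h1 h2

theorem Conn.symm {act : G → Z → Z} {E : G → Set Z} {z : Z} {g h : G}
    (hc : Conn act E z g h) : Conn act E z h g := by
  induction hc with
  | refl => exact Conn.refl _ _ _ _
  | tail _ h ih => exact Conn.trans (Relation.ReflTransGen.single h.symm) ih

theorem Conn.of_edge {act : G → Z → Z} {E : G → Set Z} {z : Z} {g s : G}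
    (h : act g z ∈ E s) : Conn act E z g (s * g) :=
  Relation.ReflTransGen.single ⟨s, Or.inl ⟨h, rfl⟩⟩

theorem Conn.mono {act : G → Z → Z} {E F : G → Set Z} (hEF : ∀ s, E s ⊆ F s) {z : Z} {g h : G}
    (hc : Conn act E z g h) : Conn act F z g h :=
  Relation.ReflTransGen.mono (fun _ _ ⟨s, hs⟩ =>
    ⟨s, hs.imp (fun h => ⟨hEF s h.1, h.2⟩) (fun h => ⟨hEF s h.1, h.2⟩)⟩) _ _ hc

/-- Change of the base point. -/
theorem Conn.shift {act : G → Z → Z} (hmul : ∀ g h z, act (g * h) z = act g (act h z))
    {E : G → Set Z} {z : Z} {g h : G} (k : G) (hc : Conn act E (act k z) g h) :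
    Conn act E z (g * k) (h * k) := by
  induction hc with
  | refl => exact Conn.refl _ _ _ _
  | tail _ hst ih =>
    refine Relation.ReflTransGen.tail ih ?_
    obtain ⟨s, hs⟩ := hst
    refine ⟨s, ?_⟩
    rcases hs with ⟨h1, h2⟩ | ⟨h1, h2⟩
    · left
      rw [← hmul] at h1
      exact ⟨h1, by rw [h2, mul_assoc]⟩
    · right
      rw [← hmul] at h1
      exact ⟨h1, by rw [h2, mul_assoc]⟩

theorem Conn.unshift {act : G → Z → Z} (hmul : ∀ g h z, act (g * h) z = act g (act h z))
    {E : G → Set Z} {z : Z} {g h : G} (k : G) (hc : Conn act E z (g * k) (h * k)) :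
    Conn act E (act k z) g h := by
  have h1 : ∀ k (z : Z), act k⁻¹ (act k z) = act 1 z := by
    intro k z; rw [← hmul, inv_mul_cancel]
  by_cases h1' : ∀ z, act 1 z = z
  · have hc' : Conn act E (act k⁻¹ (act k z)) (g * k) (h * k) := by rwa [h1, h1']
    have := Conn.shift hmul k⁻¹ hc'
    simpa [mul_assoc] using this
  · -- `act 1` need not be the identity; argue directly
    have key : ∀ a b : G, Conn act E z a b → Conn act E (act k z) (a * k⁻¹) (b * k⁻¹) := by
      intro a b hab
      induction hab with
      | refl => exact Conn.refl _ _ _ _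
      | tail _ hst ih =>
        refine Relation.ReflTransGen.tail ih ?_
        obtain ⟨s, hs⟩ := hst
        refine ⟨s, ?_⟩
        rcases hs with ⟨h1, h2⟩ | ⟨h1, h2⟩
        · left
          refine ⟨?_, by rw [h2, mul_assoc]⟩
          rw [← hmul]; simpa using h1
        · right
          refine ⟨?_, by rw [h2, mul_assoc]⟩
          rw [← hmul]; simpa using h1
    simpa using key _ _ hc

/-- Replacing the edges of `E` by paths of `F`. -/
theorem Conn.bind {act : G → Z → Z} (hmul : ∀ g h z, act (g * h) z = act g (act h z))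
    {E F : G → Set Z} {z : Z}
    (hEF : ∀ k s, act k z ∈ E s → Conn act F (act k z) 1 s) {g h : G}
    (hc : Conn act E z g h) : Conn act F z g h := by
  induction hc with
  | refl => exact Conn.refl _ _ _ _
  | tail _ hst ih =>
    obtain ⟨s, hs⟩ := hst
    rcases hs with ⟨h1, h2⟩ | ⟨h1, h2⟩
    · have := Conn.shift hmul _ (hEF _ _ h1)
      rw [one_mul] at this
      rw [h2]
      exact ih.trans this
    · have := Conn.shift hmul _ (hEF _ _ h1)
      rw [one_mul] at this
      rw [h2] at ih
      exact ih.trans this.symm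

end defs

section meas

variable {G : Type} [Group G] {Z : Type} [MeasurableSpace Z] {μ : Measure Z}

theorem PA.inv_act (α : PA G μ) (g : G) (z : Z) : α.act g⁻¹ (α.act g z) = z := by
  rw [← α.mul, inv_mul_cancel, α.one]

theorem PA.act_inv (α : PA G μ) (g : G) (z : Z) : α.act g (α.act g⁻¹ z) = z := by
  rw [← α.mul, mul_inv_cancel, α.one]

theorem PA.measurable (α : PA G μ) (g : G) : Measurable (α.act g) := (α.mp g).measurable

theorem PA.preimage (α : PA G μ) (g : G) {A : Set Z} (hA : MeasurableSet A) :
    μ (α.act g ⁻¹' A) = μ A :=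
  (α.mp g).measure_preimage hA.nullMeasurableSet

theorem PA.ae_orbit [Countable G] (α : PA G μ) {P : Z → Prop} (h : ∀ᵐ z ∂μ, P z) :
    ∀ᵐ z ∂μ, ∀ g, P (α.act g z) := by
  rw [ae_all_iff]
  intro g
  exact (α.mp g).quasiMeasurePreserving.ae h

theorem measurableSet_conn [Countable G] (α : PA G μ) {E : G → Set Z}
    (hE : ∀ s, MeasurableSet (E s)) (g h : G) : MeasurableSet {z | Conn α.act E z g h} := by
  have hstep : ∀ g h, MeasurableSet {z | Step α.act E z g h} := by
    intro g h
    have : {z | Step α.act E z g h} = ⋃ s, ({z | α.act g z ∈ E s ∧ h = s * g} ∪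
        {z | α.act h z ∈ E s ∧ g = s * h}) := by
      ext z
      simp only [Step, mem_setOf_eq, mem_iUnion, mem_union]
    rw [this]
    refine MeasurableSet.iUnion fun s => MeasurableSet.union ?_ ?_
    · by_cases hs : h = s * g
      · simp only [hs, and_true]
        exact α.measurable g (hE s)
      · simp [hs]
    · by_cases hs : g = s * h
      · simp only [hs, and_true]
        exact α.measurable h (hE s)
      · simp [hs]
  -- paths of length at most `n`
  let R : ℕ → Z → G → G → Prop := fun n => Nat.rec (fun _ g h => g = h)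
    (fun _ r z g h => r z g h ∨ ∃ k, r z g k ∧ Step α.act E z k h) n
  have hRm : ∀ n g h, MeasurableSet {z | R n z g h} := by
    intro n
    induction n with
    | zero =>
      intro g h
      exact MeasurableSet.const _
    | succ n ih =>
      intro g h
      have : {z | R (n + 1) z g h} = {z | R n z g h} ∪ ⋃ k, ({z | R n z g k} ∩
          {z | Step α.act E z k h}) := by
        ext z
        simp only [mem_setOf_eq, mem_union, mem_iUnion, mem_inter_iff]
        rfl
      rw [this]
      exact (ih g h).union (MeasurableSet.iUnion fun k => (ih g k).inter (hstep k h))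
  have heq : {z | Conn α.act E z g h} = ⋃ n, {z | R n z g h} := by
    ext z
    simp only [mem_setOf_eq, mem_iUnion]
    constructor
    · intro hc
      induction hc with
      | refl => exact ⟨0, rfl⟩
      | tail _ hst ih =>
        obtain ⟨n, hn⟩ := ih
        exact ⟨n + 1, Or.inr ⟨_, hn, hst⟩⟩
    · rintro ⟨n, hn⟩
      induction n generalizing h with
      | zero =>
        have : g = h := hn
        rw [this]
        exact Conn.refl _ _ _ _
      | succ n ih =>
        rcases hn with hn | ⟨k, hk, hst⟩
        · exact ih h hn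
        · exact (ih k hk).trans (Relation.ReflTransGen.single hst)
  rw [heq]
  exact MeasurableSet.iUnion fun n => hRm n g h

theorem cost_mono {E F : G → Set Z} (h : ∀ s, E s ⊆ F s) : cost μ E ≤ cost μ F :=
  ENNReal.tsum_le_tsum fun s => measure_mono (h s)

theorem cost_union_le (E F : G → Set Z) : cost μ (fun s => E s ∪ F s) ≤ cost μ E + cost μ F := by
  unfold cost
  rw [← ENNReal.tsum_add]
  exact ENNReal.tsum_le_tsum fun s => measure_union_le _ _

theorem Gen.mono {α : PA G μ} {E F : G → Set Z} (h : ∀ s, E s ⊆ F s)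
    (hE : Gen μ α.act E) : Gen μ α.act F := by
  filter_upwards [hE] with z hz g
  exact (hz g).mono h

/-- If almost every edge of `E` is generated by `F` and `E` generates, then `F` generates. -/
theorem Gen.bind [Countable G] {α : PA G μ} {E F : G → Set Z}
    (h : ∀ᵐ z ∂μ, ∀ s, z ∈ E s → Conn α.act F z 1 s)
    (hE : Gen μ α.act E) : Gen μ α.act F := by
  filter_upwards [hE, α.ae_orbit h] with z hz h2 g
  exact Conn.bind α.mul (fun k s hk => h2 k s hk) (hz g)

end meas

end RLim
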