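import Mathlib

/-! The uniform product measure. -/

open MeasureTheory Set

namespace RLim

/-- Uniform measure on `Fin M`. -/
noncomputable def unif (M : ℕ) : Measure (Fin M) := (M : ENNReal)⁻¹ • Measure.count

theorem unif_prob (M : ℕ) (hM : M ≠ 0) : IsProbabilityMeasure (unif M) := by
  refine ⟨?_⟩
  unfold unif
  rw [Measure.smul_apply, Measure.count_univ, smul_eq_mul]
  simp only [ENat.card_eq_coe_fintype_card, Fintype.card_fin, ENat.toENNReal_coe]
  exact ENNReal.inv_mul_cancel (by exact_mod_cast hM) (ENNReal.natCast_ne_top M)

/-- For independent uniform classes two different coordinates agree with probability `1 / M`. -/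
theorem unif_diag {I : Type} (M : ℕ) (hM : M ≠ 0) (a b : I) (hab : a ≠ b) :
    haveI := unif_prob M hM
    Measure.infinitePi (fun _ : I => unif M) {u | u a = u b} = (M : ENNReal)⁻¹ := by
  have := unif_prob M hM
  have h := Measure.infinitePi_map_eval_prod (P := fun _ : I => unif M) hab
  have hm : MeasurableSet {p : Fin M × Fin M | p.1 = p.2} := measurableSet_eq_fun measurable_fst
    measurable_snd
  have h2 : (Measure.infinitePi (fun _ : I => unif M)).map (fun y => (y a, y b))
      {p : Fin M × Fin M | p.1 = p.2} = (M : ENNReal)⁻¹ := by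
    rw [h, Measure.prod_apply hm]
    have hs : ∀ x : Fin M, unif M (Prod.mk x ⁻¹' {p : Fin M × Fin M | p.1 = p.2})
        = (M : ENNReal)⁻¹ := by
      intro x
      have e : Prod.mk x ⁻¹' {p : Fin M × Fin M | p.1 = p.2} = {x} := by
        ext z
        simp [eq_comm]
      rw [e]
      unfold unif
      rw [Measure.smul_apply, Measure.count_singleton, smul_eq_mul, mul_one]
    simp only [hs]
    rw [lintegral_const, measure_univ, mul_one]
  rw [Measure.map_apply (by fun_prop) hm] at h2
  exact h2

end RLim
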