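import Pool.Agent.Lib.MP_354e85_al.RL.Perc
import Pool.Agent.Lib.MP_354e85_al.RL.Bern

/-! Independent classes, on which `N` acts trivially. -/

open MeasureTheory Set

namespace RLim

/-- The shift of the classes. -/
def clAct {G : Type} [Group G] (N : Subgroup G) [N.Normal] (M : ℕ) (g : G)
    (u : (G ⧸ N) × G → Fin M) : (G ⧸ N) × G → Fin M :=
  fun p => u (((g⁻¹ : G) : G ⧸ N) * p.1, p.2)

theorem clAct_inj {G : Type} [Group G] (N : Subgroup G) [N.Normal] (g : G) :
    Function.Injective (fun p : (G ⧸ N) × G => ((((g⁻¹ : G) : G ⧸ N) * p.1, p.2) : (G ⧸ N) × G)) := by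
  rintro ⟨q, l⟩ ⟨q', l'⟩ h
  simp only [Prod.mk.injEq, mul_right_inj] at h
  exact Prod.ext h.1 h.2

/-- The action on the classes. -/
noncomputable def clPA {G : Type} [Group G] (N : Subgroup G) [N.Normal] (M : ℕ) (hM : M ≠ 0) :
    haveI := unif_prob M hM
    PA G (Measure.infinitePi (fun _ : (G ⧸ N) × G => unif M)) :=
  haveI := unif_prob M hM
  { act := clAct N M
    one := by
      intro u
      funext p
      simp [clAct]
    mul := by
      intro g h u
      funext p
      simp only [clAct, mul_inv_rev, QuotientGroup.mk_mul, mul_assoc]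
    mp := by
      intro g
      refine ⟨by unfold clAct; fun_prop, ?_⟩
      exact Measure.map_infinitePi_infinitePi_of_inj
        (P := fun _ : (G ⧸ N) × G => unif M) (clAct_inj N g) }

/-- Independent classes. -/
theorem exists_classes {G : Type} [Group G] [Countable G] (N : Subgroup G) [N.Normal]
    (T : Finset (G × G × Finset G))
    (hT : ∀ t ∈ T, t.1 ≠ t.2.1 ∧ ∀ b ∈ t.2.2, ∀ b' ∈ t.2.2, b ≠ b' → b⁻¹ * b' ∉ N) :
    ∃ (V : Type) (_ : MeasurableSpace V) (_ : StandardBorelSpace V) (ν : Measure V)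
      (_ : IsProbabilityMeasure ν) (β : PA G ν) (κ : G → V → ℕ),
      (∀ g j, MeasurableSet {u | κ g u = j}) ∧ (∀ n ∈ N, ∀ u, β.act n u = u) ∧
      ∀ t ∈ T, 2 * (t.2.2.card : ENNReal) * ν (Distinct β.act κ t.1 t.2.1 t.2.2)ᶜ ≤ 1 := by
  classical
  obtain ⟨M, hMdef⟩ : ∃ M : ℕ, M = 1 + ∑ t ∈ T, 8 * t.2.2.card ^ 3 := ⟨_, rfl⟩
  have hM : M ≠ 0 := by omega
  have hp := unif_prob M hM
  have hG : Countable (G ⧸ N) := Quotient.countable
  refine ⟨(G ⧸ N) × G → Fin M, inferInstance, inferInstance,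
    Measure.infinitePi (fun _ : (G ⧸ N) × G => unif M), inferInstance, clPA N M hM,
    fun l u => (u (1, l)).val, ?_, ?_, ?_⟩
  · intro g j
    have hm : Measurable (fun u : (G ⧸ N) × G → Fin M => (u (1, g)).val) := by
      have h1 : Measurable (fun u : (G ⧸ N) × G → Fin M => u (1, g)) := measurable_pi_apply _
      exact (measurable_from_top (f := fun i : Fin M => i.val)).comp h1
    exact hm (measurableSet_singleton j)
  · intro n hn u
    funext p
    change u (((n⁻¹ : G) : G ⧸ N) * p.1, p.2) = u p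
    have : ((n⁻¹ : G) : G ⧸ N) = 1 := (QuotientGroup.eq_one_iff _).2 (N.inv_mem hn)
    rw [this, one_mul]
  · intro t ht
    obtain ⟨hcd, hB⟩ := hT t ht
    obtain ⟨c, d, B⟩ := t
    simp only at hcd hB ⊢
    have hMB : 8 * B.card ^ 3 ≤ M := by
      have := Finset.single_le_sum (f := fun t : G × G × Finset G => 8 * t.2.2.card ^ 3)
        (fun _ _ => Nat.zero_le _) ht
      simp only at this
      omega
    -- the pairs of different edges
    let P : Finset (G × G) := B ×ˢ {c, d}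
    let Q : Finset ((G × G) × (G × G)) := (P ×ˢ P).filter fun q => q.1 ≠ q.2
    have hsub : (Distinct (clPA N M hM).act (fun l u => (u (1, l)).val) c d B)ᶜ ⊆
        ⋃ q ∈ Q, {u : (G ⧸ N) × G → Fin M |
          u (((q.1.1⁻¹ : G) : G ⧸ N), q.1.2) = u (((q.2.1⁻¹ : G) : G ⧸ N), q.2.2)} := by
      intro u hu
      simp only [Distinct, mem_compl_iff, mem_ofPred_eq, not_forall] at hu
      obtain ⟨b, hb, b', hb', l, hl, l', hl', h, hne⟩ := hu
      simp only [mem_iUnion, mem_ofPred_eq]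
      refine ⟨((b, l), (b', l')), ?_, ?_⟩
      · simp only [Q, P, Finset.mem_filter, Finset.mem_product, ne_eq, Prod.mk.injEq]
        refine ⟨⟨⟨hb, by simpa using hl⟩, ⟨hb', by simpa using hl'⟩⟩, hne⟩
      · have h2 := Fin.ext h
        change u (((b⁻¹ : G) : G ⧸ N) * 1, l) = u (((b'⁻¹ : G) : G ⧸ N) * 1, l') at h2
        rwa [mul_one, mul_one] at h2
    have hQ : ∀ q ∈ Q, Measure.infinitePi (fun _ : (G ⧸ N) × G => unif M)
        {u : (G ⧸ N) × G → Fin M |
          u (((q.1.1⁻¹ : G) : G ⧸ N), q.1.2) = u (((q.2.1⁻¹ : G) : G ⧸ N), q.2.2)} ≤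
          (M : ENNReal)⁻¹ := by
      rintro ⟨⟨b, l⟩, ⟨b', l'⟩⟩ hq
      simp only [Q, P, Finset.mem_filter, Finset.mem_product, ne_eq, Prod.mk.injEq] at hq
      refine le_of_eq (unif_diag M hM _ _ ?_)
      intro h
      simp only [Prod.mk.injEq] at h
      apply hq.2
      refine ⟨?_, h.2⟩
      by_contra hbb
      apply hB b' hq.1.2.1 b hq.1.1.1 (Ne.symm hbb)
      have h3 := h.1
      rw [QuotientGroup.mk_inv, QuotientGroup.mk_inv, inv_inj] at h3
      exact QuotientGroup.eq.1 h3.symm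
    have hcard : Q.card ≤ (2 * B.card) ^ 2 := by
      have h1 : P.card ≤ 2 * B.card := by
        rw [Finset.card_product, mul_comm]
        exact Nat.mul_le_mul_right _ Finset.card_le_two
      calc Q.card ≤ (P ×ˢ P).card := Finset.card_filter_le _ _
        _ = P.card * P.card := Finset.card_product _ _
        _ ≤ (2 * B.card) * (2 * B.card) := Nat.mul_le_mul h1 h1
        _ = (2 * B.card) ^ 2 := by ring
    have hmeas : Measure.infinitePi (fun _ : (G ⧸ N) × G => unif M)
        (Distinct (clPA N M hM).act (fun l u => (u (1, l)).val) c d B)ᶜ ≤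
        ((2 * B.card) ^ 2 : ℕ) * (M : ENNReal)⁻¹ := by
      calc _ ≤ Measure.infinitePi (fun _ : (G ⧸ N) × G => unif M) (⋃ q ∈ Q,
            {u : (G ⧸ N) × G → Fin M |
          u (((q.1.1⁻¹ : G) : G ⧸ N), q.1.2) = u (((q.2.1⁻¹ : G) : G ⧸ N), q.2.2)}) :=
            measure_mono hsub
        _ ≤ ∑ q ∈ Q, Measure.infinitePi (fun _ : (G ⧸ N) × G => unif M)
            {u : (G ⧸ N) × G → Fin M |
          u (((q.1.1⁻¹ : G) : G ⧸ N), q.1.2) = u (((q.2.1⁻¹ : G) : G ⧸ N), q.2.2)} :=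
            measure_biUnion_finset_le _ _
        _ ≤ ∑ _q ∈ Q, (M : ENNReal)⁻¹ := Finset.sum_le_sum hQ
        _ = (Q.card : ENNReal) * (M : ENNReal)⁻¹ := by rw [Finset.sum_const, nsmul_eq_mul]
        _ ≤ _ := by gcongr
    refine le_trans (mul_le_mul_right hmeas _) ?_
    calc 2 * (B.card : ENNReal) * (((2 * B.card) ^ 2 : ℕ) * (M : ENNReal)⁻¹)
      _ = ((8 * B.card ^ 3 : ℕ) : ENNReal) * (M : ENNReal)⁻¹ := by
          push_cast
          ring
      _ ≤ (M : ENNReal) * (M : ENNReal)⁻¹ := by gcongr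
      _ = 1 := ENNReal.mul_inv_cancel (by exact_mod_cast hM) (ENNReal.natCast_ne_top M)

end RLim
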