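import Pool.Agent.Lib.MP_354e85_al.RL.Perc
import Pool.Agent.Lib.MP_354e85_al.Lim.Forest

/-! The deterministic count of kept edges (adapter to `Lim/Forest.lean`, `pair_kept`). -/

open MeasureTheory Set

namespace RLim

variable {G : Type} [Group G] {V : Type}

open Pool.Agent.Lib.MP_354e85_al.Lim in
/-- The relation of `Lim/Forest.lean` is connectedness by the low edges. -/
theorem eqvGen_low_iff (act : G → V → V) (H : Subgroup G) (S : Finset G) (κ : G → V → ℕ)
    (u : V) (k : ℕ) (x y : G) :
    Relation.EqvGen (Low H (id : G → G) (fun x j => κ j (act x u)) (S : Set G) k) x y ↔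
      Conn act (low H S κ k) u x y := by
  constructor
  · intro h
    induction h with
    | rel a b h =>
      rcases h with ⟨h, hh, rfl⟩ | ⟨j, hj, hlt, rfl⟩
      · exact Conn.of_edge (Or.inl hh)
      · exact Conn.of_edge (Or.inr ⟨hj, hlt⟩)
    | refl a => exact Conn.refl _ _ _ _
    | symm a b _ ih => exact ih.symm
    | trans a b c _ _ ih1 ih2 => exact ih1.trans ih2
  · intro h
    have hedge : ∀ g s, act g u ∈ low H S κ k s →
        Relation.EqvGen (Low H (id : G → G) (fun x j => κ j (act x u)) (S : Set G) k) g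
          (s * g) := by
      intro g s hs
      refine Relation.EqvGen.rel _ _ ?_
      rcases hs with hs | ⟨hs, hlt⟩
      · exact Or.inl ⟨s, hs, rfl⟩
      · exact Or.inr ⟨s, hs, hlt, rfl⟩
    induction h with
    | refl => exact Relation.EqvGen.refl _
    | tail _ hst ih =>
      obtain ⟨s, ⟨hs, rfl⟩ | ⟨hs, rfl⟩⟩ := hst
      · exact ih.trans _ _ _ (hedge _ _ hs)
      · exact ih.trans _ _ _ ((hedge _ _ hs).symm _ _)

open Pool.Agent.Lib.MP_354e85_al.Lim in
theorem kept_iff {act : G → V → V} (hmul : ∀ g h u, act (g * h) u = act g (act h u))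
    (H : Subgroup G) (S : Finset G) (κ : G → V → ℕ) (u : V) (b j : G) :
    act b u ∈ kept act H S κ j ↔
      Kept H (id : G → G) (fun x j => κ j (act x u)) (S : Set G) b j := by
  unfold kept Kept
  rw [eqvGen_low_iff, mem_setOf_eq, not_iff_not]
  constructor
  · intro h
    have := Conn.shift hmul b h
    rwa [one_mul] at this
  · intro h
    refine Conn.unshift hmul b ?_
    rwa [one_mul]

open Pool.Agent.Lib.MP_354e85_al.Lim in
/-- Deterministic count: on `Distinct`, at most `|B| - 1` of the `2 |B|` edges are kept. -/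
theorem count_kept {act : G → V → V} (hone : ∀ u, act 1 u = u)
    (hmul : ∀ g h u, act (g * h) u = act g (act h u)) (H : Subgroup G)
    (S : Finset G) (κ : G → V → ℕ) {c d : G} (hc : c ∈ S) (hd : d ∈ S) (hcd : c ≠ d)
    (B : Finset G) (hB : IsPat H c d B) (u : V) (hu : u ∈ Distinct act κ c d B) :
    (∑ b ∈ B, ((kept act H S κ c).indicator (fun _ => (1 : ENNReal)) (act b u) +
      (kept act H S κ d).indicator (fun _ => (1 : ENNReal)) (act b u))) + 1 ≤
      (B.card : ENNReal) := by
  classical
  obtain ⟨hne, R, hRB, hR⟩ := hB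
  let q : G → Quotient (QuotientGroup.rightRel H) := Quotient.mk (QuotientGroup.rightRel H)
  have hmem : ∀ w, (w ∈ B ∨ ∃ b ∈ B, w = c * b ∨ w = d * b) → q w ∈ R.image q := by
    intro w hw
    obtain ⟨r, hr, hwr⟩ := hR w hw
    refine Finset.mem_image.2 ⟨r, hr, ?_⟩
    exact Quotient.sound (QuotientGroup.rightRel_apply.2 hwr)
  have key := pair_kept H (id : G → G) (fun x j => κ j (act x u)) (S : Set G) c d hc hd B hne
    (R.image q) (fun b hb => hmem _ (Or.inl hb)) (fun b hb => hmem _ (Or.inr ⟨b, hb, Or.inl rfl⟩))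
    (fun b hb => hmem _ (Or.inr ⟨b, hb, Or.inr rfl⟩))
    (fun b hb b' hb' j j' hj hj' h => hu b hb b' hb' j hj j' hj' h) hcd
  have hcount : ∀ j : G, ∑ b ∈ B, (kept act H S κ j).indicator (fun _ => (1 : ENNReal)) (act b u) =
      (({b | b ∈ B ∧ Kept H (id : G → G) (fun x j => κ j (act x u)) (S : Set G) b j}.ncard : ℕ) :
        ENNReal) := by
    intro j
    have h1 : {b | b ∈ B ∧ Kept H (id : G → G) (fun x j => κ j (act x u)) (S : Set G) b j} =
        ((B.filter (fun b => act b u ∈ kept act H S κ j) : Finset G) : Set G) := by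
      ext b
      simp [kept_iff hmul]
    rw [h1, Set.ncard_coe_finset]
    simp only [Set.indicator_apply, Finset.sum_boole]
  rw [Finset.sum_add_distrib, hcount, hcount]
  have h2 : (R.image q).card ≤ B.card := Finset.card_image_le.trans hRB
  exact_mod_cast key.trans h2

end RLim
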