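import Pool.Agent.Lib.MP_354e85_al.RL.Basic

/-! Replacing edges by loops with labels in `N`. -/

open MeasureTheory Set

namespace RLim

variable {G : Type} [Group G] [Countable G] {Z : Type} [MeasurableSpace Z] {μ : Measure Z}

/-- The loops: `M` is a graphing with edges inside `Y`, `F'` joins any two points of `Y` in the
same orbit by a label in the right class modulo `N`. -/
theorem exists_loops (N : Subgroup G) [N.Normal] (α : PA G μ)
    (hN : ∀ n ∈ N, ∀ z, α.act n z = z) (Y : Set Z) (hY : MeasurableSet Y)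
    (M F' : G → Set Z) (hM : ∀ s, MeasurableSet (M s)) (hF' : ∀ s, MeasurableSet (F' s))
    (hF : ∀ᵐ z ∂μ, z ∈ Y → ∀ g, α.act g z ∈ Y → ∃ n ∈ N, Conn α.act F' z 1 (n * g)) :
    ∃ L : G → Set Z, (∀ s, MeasurableSet (L s)) ∧ cost μ L ≤ cost μ M ∧
      (∀ s, s ∉ N → L s = ∅) ∧ (∀ s, L s ⊆ Y) ∧
      (∀ᵐ z ∂μ, ∀ s, z ∈ M s → z ∈ Y → α.act s z ∈ Y →
        Conn α.act (fun t => F' t ∪ L t) z 1 s) := by
  sorry

end RLim
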