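import Pool.Agent.Lib.MP_354e85_al.RL.Basic

/-! Moving the edges of a graphing to the roots. -/

open MeasureTheory Set

namespace RLim

/-- The edges of `E` moved to the roots `ρ z`; edges with trivial moved label are dropped. -/
def moved {G : Type} [Group G] {Z : Type} (act : G → Z → Z) (E : G → Set Z) (ρ : Z → G) :
    G → Set Z :=
  fun t => {y | t ≠ 1 ∧ ∃ z s, z ∈ E s ∧ act (ρ z) z = y ∧ ρ (act s z) * s * (ρ z)⁻¹ = t}

theorem conn_moved_edge {G : Type} [Group G] {Z : Type} {act : G → Z → Z}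
    (hmul : ∀ g h z, act (g * h) z = act g (act h z))
    {E : G → Set Z} (ρ : Z → G) {z : Z} {h s : G} (hs : act h z ∈ E s) :
    Conn act (moved act E ρ) (act (ρ z) z) (ρ (act h z) * h * (ρ z)⁻¹)
      (ρ (act (s * h) z) * (s * h) * (ρ z)⁻¹) := by
  have e1 : ρ (act (s * h) z) * (s * h) * (ρ z)⁻¹ =
      (ρ (act s (act h z)) * s * (ρ (act h z))⁻¹) * (ρ (act h z) * h * (ρ z)⁻¹) := by
    rw [hmul s h z]
    group
  rw [e1]
  by_cases ht : ρ (act s (act h z)) * s * (ρ (act h z))⁻¹ = 1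
  · rw [ht, one_mul]
    exact Conn.refl _ _ _ _
  · apply Conn.of_edge
    refine ⟨ht, act h z, s, hs, ?_, rfl⟩
    rw [← hmul, ← hmul]
    congr 1
    group

theorem conn_moved {G : Type} [Group G] {Z : Type} {act : G → Z → Z}
    (hone : ∀ z, act 1 z = z) (hmul : ∀ g h z, act (g * h) z = act g (act h z))
    {E : G → Set Z} (ρ : Z → G) {z : Z} {g h : G} (hc : Conn act E z g h) :
    Conn act (moved act E ρ) (act (ρ z) z) (ρ (act g z) * g * (ρ z)⁻¹)
      (ρ (act h z) * h * (ρ z)⁻¹) := by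
  have _ := hone
  induction hc with
  | refl => exact Conn.refl _ _ _ _
  | tail _ hst ih =>
    obtain ⟨s, hs⟩ := hst
    rcases hs with ⟨h1, h2⟩ | ⟨h1, h2⟩
    · subst h2
      exact ih.trans (conn_moved_edge hmul ρ h1)
    · subst h2
      exact ih.trans (conn_moved_edge hmul ρ h1).symm

variable {G : Type} [Group G] [Countable G] {Z : Type} [MeasurableSpace Z] {μ : Measure Z}

/-- The part of `E s` with given roots. -/
def piece (act : G → Z → Z) (E : G → Set Z) (ρ : Z → G) (s : G) (q : G × G) : Set Z :=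
  {z | z ∈ E s ∧ ρ z = q.1 ∧ ρ (act s z) = q.2}

omit [Countable G] in
theorem measurable_piece (α : PA G μ) {E : G → Set Z} (hE : ∀ s, MeasurableSet (E s))
    {ρ : Z → G} (hρ : ∀ g, MeasurableSet {z | ρ z = g}) (s : G) (q : G × G) :
    MeasurableSet (piece α.act E ρ s q) :=
  (hE s).inter ((hρ q.1).inter (α.measurable s (hρ q.2)))

/-- The part of `moved t` which comes from `E s` and given roots. -/
def mpiece (act : G → Z → Z) (E : G → Set Z) (ρ : Z → G) (t s : G) (q : G × G) : Set Z :=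
  {y | (t ≠ 1 ∧ q.2 * s * q.1⁻¹ = t) ∧ act q.1⁻¹ y ∈ piece act E ρ s q}

omit [Countable G] in
theorem moved_eq (α : PA G μ) (E : G → Set Z) (ρ : Z → G) (t : G) :
    moved α.act E ρ t = ⋃ s, ⋃ q, mpiece α.act E ρ t s q := by
  ext y
  simp only [mem_iUnion]
  constructor
  · rintro ⟨ht, z, s, hz, hy, hst⟩
    refine ⟨s, (ρ z, ρ (α.act s z)), ⟨ht, hst⟩, ?_⟩
    have : α.act (ρ z)⁻¹ y = z := by rw [← hy, α.inv_act]
    show α.act (ρ z)⁻¹ y ∈ piece α.act E ρ s (ρ z, ρ (α.act s z))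
    rw [this]
    exact ⟨hz, rfl, rfl⟩
  · rintro ⟨s, q, ⟨ht, hst⟩, h1, h2, h3⟩
    refine ⟨ht, α.act q.1⁻¹ y, s, h1, ?_, ?_⟩
    · rw [h2, α.act_inv]
    · rw [h3, h2, hst]

omit [Countable G] in
theorem mpiece_of (α : PA G μ) {E : G → Set Z} {ρ : Z → G} {t s : G} {q : G × G}
    (h : t ≠ 1 ∧ q.2 * s * q.1⁻¹ = t) :
    mpiece α.act E ρ t s q = α.act q.1⁻¹ ⁻¹' piece α.act E ρ s q := by
  ext y
  simp [mpiece, h]

omit [Countable G] in
theorem mpiece_not (α : PA G μ) {E : G → Set Z} {ρ : Z → G} {t s : G} {q : G × G}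
    (h : ¬ (t ≠ 1 ∧ q.2 * s * q.1⁻¹ = t)) :
    mpiece α.act E ρ t s q = ∅ := by
  ext y
  simp only [mpiece, mem_ofPred_eq, mem_empty_iff_false, iff_false]
  exact fun h' => h h'.1

theorem measurable_moved (α : PA G μ) {E : G → Set Z} (hE : ∀ s, MeasurableSet (E s))
    {ρ : Z → G} (hρ : ∀ g, MeasurableSet {z | ρ z = g}) (t : G) :
    MeasurableSet (moved α.act E ρ t) := by
  rw [moved_eq]
  refine MeasurableSet.iUnion fun s => MeasurableSet.iUnion fun q => ?_
  by_cases h : t ≠ 1 ∧ q.2 * s * q.1⁻¹ = t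
  · rw [mpiece_of α h]
    exact α.measurable _ (measurable_piece α hE hρ s q)
  · rw [mpiece_not α h]
    exact MeasurableSet.empty

omit [Countable G] in
theorem measure_mpiece (α : PA G μ) {E : G → Set Z} (hE : ∀ s, MeasurableSet (E s))
    {ρ : Z → G} (hρ : ∀ g, MeasurableSet {z | ρ z = g}) (t s : G) (q : G × G) :
    μ (mpiece α.act E ρ t s q) =
      {r : G | r ≠ 1 ∧ q.2 * s * q.1⁻¹ = r}.indicator (fun _ => μ (piece α.act E ρ s q)) t := by
  by_cases h : t ≠ 1 ∧ q.2 * s * q.1⁻¹ = t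
  · rw [mpiece_of α h, α.preimage _ (measurable_piece α hE hρ s q), indicator_of_mem]
    exact h
  · rw [mpiece_not α h, indicator_of_notMem, measure_empty]
    exact h

omit [Countable G] in
theorem tsum_mpiece (α : PA G μ) {E : G → Set Z} (hE : ∀ s, MeasurableSet (E s))
    {ρ : Z → G} (hρ : ∀ g, MeasurableSet {z | ρ z = g}) (s : G) (q : G × G) :
    ∑' t, μ (mpiece α.act E ρ t s q) =
      μ (piece α.act E ρ s q ∩ {z | ρ (α.act s z) * s * (ρ z)⁻¹ ≠ 1}) := by
  rw [tsum_eq_single (q.2 * s * q.1⁻¹)]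
  · by_cases h : q.2 * s * q.1⁻¹ = 1
    · rw [mpiece_not α (by simp [h]), measure_empty]
      have : piece α.act E ρ s q ∩ {z | ρ (α.act s z) * s * (ρ z)⁻¹ ≠ 1} = ∅ := by
        ext z
        simp only [mem_inter_iff, mem_ofPred_eq, mem_empty_iff_false, iff_false]
        rintro ⟨⟨_, h2, h3⟩, h4⟩
        rw [h2, h3] at h4
        exact h4 h
      rw [this, measure_empty]
    · rw [mpiece_of α ⟨h, rfl⟩, α.preimage _ (measurable_piece α hE hρ s q)]
      congr 1
      ext z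
      simp only [mem_inter_iff, mem_ofPred_eq]
      constructor
      · rintro ⟨h1, h2, h3⟩
        refine ⟨⟨h1, h2, h3⟩, ?_⟩
        rw [h2, h3]
        exact h
      · exact fun hz => hz.1
  · intro t ht
    rw [mpiece_not α (fun h => ht h.2.symm), measure_empty]

theorem cost_moved (α : PA G μ) {E : G → Set Z} (hE : ∀ s, MeasurableSet (E s))
    {ρ : Z → G} (hρ : ∀ g, MeasurableSet {z | ρ z = g}) :
    cost μ (moved α.act E ρ) ≤
      ∑' s, μ {z | z ∈ E s ∧ ρ (α.act s z) * s * (ρ z)⁻¹ ≠ 1} := by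
  have h1 : cost μ (moved α.act E ρ) ≤ ∑' t, ∑' s, ∑' q, μ (mpiece α.act E ρ t s q) := by
    unfold cost
    refine ENNReal.tsum_le_tsum fun t => ?_
    rw [moved_eq]
    refine (measure_iUnion_le _).trans (ENNReal.tsum_le_tsum fun s => ?_)
    exact measure_iUnion_le _
  refine h1.trans ?_
  rw [ENNReal.tsum_comm]
  refine ENNReal.tsum_le_tsum fun s => ?_
  rw [ENNReal.tsum_comm]
  have hN : MeasurableSet {z | ρ (α.act s z) * s * (ρ z)⁻¹ ≠ 1} := by
    have : {z | ρ (α.act s z) * s * (ρ z)⁻¹ ≠ 1} =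
        ⋃ a, ⋃ b, ({z | ρ z = a} ∩ (α.act s ⁻¹' {z | ρ z = b}) ∩
          {_z | b * s * a⁻¹ ≠ 1}) := by
      ext z
      simp only [mem_ofPred_eq, mem_iUnion, mem_inter_iff, mem_preimage]
      constructor
      · intro h
        exact ⟨_, _, ⟨rfl, rfl⟩, h⟩
      · rintro ⟨a, b, ⟨ha, hb⟩, h⟩
        rw [ha, hb]
        exact h
    rw [this]
    exact MeasurableSet.iUnion fun a => MeasurableSet.iUnion fun b =>
      ((hρ a).inter (α.measurable s (hρ b))).inter (MeasurableSet.const _)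
  have h2 : ∑' q, ∑' t, μ (mpiece α.act E ρ t s q) =
      ∑' q, μ (piece α.act E ρ s q ∩ {z | ρ (α.act s z) * s * (ρ z)⁻¹ ≠ 1}) :=
    tsum_congr fun q => tsum_mpiece α hE hρ s q
  rw [h2, ← measure_iUnion]
  · refine measure_mono ?_
    intro z hz
    simp only [mem_iUnion] at hz
    obtain ⟨q, hq⟩ := hz
    exact ⟨hq.1.1, hq.2⟩
  · intro q r hqr
    rw [Function.onFun, Set.disjoint_left]
    rintro z ⟨⟨_, h2, h3⟩, _⟩ ⟨⟨_, h5, h6⟩, _⟩
    exact hqr (Prod.ext (h2.symm.trans h5) (h3.symm.trans h6))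
  · intro q
    exact (measurable_piece α hE hρ s q).inter hN

end RLim
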