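import Pool.Agent.Lib.MP_354e85_al.RL.Gauge
import Pool.Agent.Lib.MP_354e85_al.RL.Loops
import Pool.Agent.Lib.MP_354e85_al.RL.Move

/-! If `N` acts trivially, `E` generates and `F` generates modulo `N`, then everything is
generated by a graphing `P` that is not more expensive than `F` and loops `L` with labels in `N`
at the points of a section `Y`, of cost at most `cost E - μ Yᶜ`. -/

open MeasureTheory Set

namespace RLim

variable {G : Type} [Group G] [Countable G] {Z : Type} [MeasurableSpace Z] {μ : Measure Z}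

theorem decomp [IsProbabilityMeasure μ] (N : Subgroup G) [N.Normal] (α : PA G μ)
    (hN : ∀ n ∈ N, ∀ z, α.act n z = z) (Y : Set Z) (hY : MeasurableSet Y)
    (hsec : ∀ᵐ z ∂μ, ∃ g, α.act g z ∈ Y) (E F : G → Set Z)
    (hE : ∀ s, MeasurableSet (E s)) (hF : ∀ s, MeasurableSet (F s))
    (hgenE : Gen μ α.act E) (hgenF : GenMod N μ α.act F) :
    ∃ P L : G → Set Z, (∀ s, MeasurableSet (P s)) ∧ (∀ s, MeasurableSet (L s)) ∧
      cost μ P ≤ cost μ F ∧ cost μ L + μ Yᶜ ≤ cost μ E ∧ (∀ s, s ∉ N → L s = ∅) ∧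
      (∀ s, L s ⊆ Y) ∧ Gen μ α.act (fun s => P s ∪ L s) := by
  have hreachE : ∀ᵐ z ∂μ, ∃ g, Conn α.act E z 1 g ∧ α.act g z ∈ Y := by
    filter_upwards [hgenE, hsec] with z h1 h2
    obtain ⟨g, hg⟩ := h2
    exact ⟨g, h1 g, hg⟩
  have hreachF : ∀ᵐ z ∂μ, ∃ g, Conn α.act F z 1 g ∧ α.act g z ∈ Y := by
    filter_upwards [hgenF, hsec] with z h1 h2
    obtain ⟨g, hg⟩ := h2
    obtain ⟨n, hn, hc⟩ := h1 g
    refine ⟨n * g, hc, ?_⟩
    rw [α.mul, hN n hn]
    exact hg
  obtain ⟨ρE, hρEm, hρE1, hρEY, hρEc⟩ := exists_gauge α E hE Y hY hreachE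
  obtain ⟨ρF, hρFm, hρF1, -, hρFc⟩ := exists_gauge α F hF Y hY hreachF
  have hMm := measurable_moved α hE hρEm
  have hFm := measurable_moved α hF hρFm
  have hcM : cost μ (moved α.act E ρE) + μ Yᶜ ≤ cost μ E :=
    (add_le_add_left (cost_moved α hE hρEm) _).trans hρEc
  have hcF : cost μ (moved α.act F ρF) + μ Yᶜ ≤ cost μ F :=
    (add_le_add_left (cost_moved α hF hρFm) _).trans hρFc
  have hloop : ∀ᵐ z ∂μ, z ∈ Y → ∀ g, α.act g z ∈ Y →
      ∃ n ∈ N, Conn α.act (moved α.act F ρF) z 1 (n * g) := by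
    filter_upwards [hgenF] with z h1 hz g hg
    obtain ⟨n, hn, hc⟩ := h1 g
    refine ⟨n, hn, ?_⟩
    have h2 := conn_moved α.one α.mul ρF hc
    have h3 : α.act (n * g) z = α.act g z := by rw [α.mul, hN n hn]
    rw [h3, hρF1 _ hg, α.one, hρF1 _ hz, α.one] at h2
    simpa using h2
  obtain ⟨L, hLm, hLc, hLN, hLY, hL⟩ :=
    exists_loops N α hN Y hY (moved α.act E ρE) (moved α.act F ρF) hMm hFm hloop
  refine ⟨fun g => {z | ρE z = g ∧ g ≠ 1} ∪ moved α.act F ρF g, L, ?_, hLm, ?_, ?_, hLN, hLY, ?_⟩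
  · intro s
    refine MeasurableSet.union ?_ (hFm s)
    exact (hρEm s).inter (MeasurableSet.const _)
  · refine (cost_union_le _ _).trans ?_
    refine le_trans ?_ hcF
    rw [add_comm]
    gcongr
    unfold cost
    rw [← measure_iUnion]
    · refine measure_mono ?_
      intro z hz
      simp only [mem_iUnion, mem_setOf_eq] at hz
      obtain ⟨g, h1, h2⟩ := hz
      intro hzY
      exact h2 (by rw [← h1, hρE1 z hzY])
    · intro a b hab
      rw [Function.onFun, Set.disjoint_left]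
      intro z h1 h2
      exact hab (h1.1.symm.trans h2.1)
    · intro s
      exact (hρEm s).inter (MeasurableSet.const _)
  · exact (add_le_add_left hLc _).trans hcM
  · -- generation
    filter_upwards [hgenE, α.ae_orbit hρEY, α.ae_orbit hL] with z hz hroot hLz g
    have hrt : ∀ w : Z, Conn α.act (fun s => ({z | ρE z = s ∧ s ≠ 1} ∪ moved α.act F ρF s) ∪ L s)
        w 1 (ρE w) := by
      intro w
      by_cases h1 : ρE w = 1
      · rw [h1]
        exact Conn.refl _ _ _ _
      · have h2 : α.act 1 w ∈ ({z | ρE z = ρE w ∧ ρE w ≠ 1} ∪ moved α.act F ρF (ρE w)) ∪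
            L (ρE w) := by
          rw [α.one]
          exact Or.inl (Or.inl ⟨rfl, h1⟩)
        have h3 := Conn.of_edge (act := α.act)
          (E := fun s => ({z | ρE z = s ∧ s ≠ 1} ∪ moved α.act F ρF s) ∪ L s) (z := w) h2
        rwa [mul_one] at h3
    have h1 := conn_moved α.one α.mul ρE (hz g)
    have h2 : Conn α.act (fun s => ({z | ρE z = s ∧ s ≠ 1} ∪ moved α.act F ρF s) ∪ L s)
        (α.act (ρE z) z) (ρE (α.act 1 z) * 1 * (ρE z)⁻¹) (ρE (α.act g z) * g * (ρE z)⁻¹) := by
      refine Conn.bind α.mul ?_ h1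
      intro k s hk
      have hM : α.act k (α.act (ρE z) z) ∈ Y ∧ α.act s (α.act k (α.act (ρE z) z)) ∈ Y := by
        obtain ⟨-, z', s', -, h5, h6⟩ := hk
        have hz' : z' = α.act ((ρE z')⁻¹ * k * ρE z) z := by
          rw [α.mul, α.mul, ← h5, α.inv_act]
        constructor
        · rw [← h5]
          have := hroot ((ρE z')⁻¹ * k * ρE z)
          rw [← hz'] at this
          exact this
        · rw [← h5, ← α.mul, ← h6]
          have h7 : ρE (α.act s' z') * s' * (ρE z')⁻¹ * ρE z' = ρE (α.act s' z') * s' := by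
            group
          rw [h7, α.mul]
          have := hroot (s' * ((ρE z')⁻¹ * k * ρE z))
          rw [α.mul s', ← hz'] at this
          exact this
      have h8 := hLz (k * ρE z)
      rw [α.mul] at h8
      refine (h8 s hk hM.1 hM.2).mono ?_
      intro t w hw
      rcases hw with hw | hw
      · exact Or.inl (Or.inr hw)
      · exact Or.inr hw
    have h3 := Conn.shift α.mul (ρE z) h2
    rw [α.one, mul_one, mul_inv_cancel, one_mul, inv_mul_cancel_right] at h3
    have h4 := Conn.shift α.mul g (hrt (α.act g z))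
    rw [one_mul] at h4
    exact (hrt z).trans (h3.trans h4.symm)

end RLim
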