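import Pool.Agent.Lib.MP_354e85_al.RL.Val
import Pool.Agent.Lib.MP_354e85_al.Lim.Hub

/-! Hubs from the failure of Hall's condition (adapter to `Lim/Hub.lean`). -/

namespace RLim

open Pool.Agent.Lib.MP_354e85_al (TarskiLE)

private theorem isPat_of_hubSet {G : Type} [Group G] {H K : Subgroup G} {c d : G}
    (h : Pool.Agent.Lib.MP_354e85_al.Lim.HubSet H K c d) : ∃ B : Finset G, IsPat H c d B := by
  classical
  obtain ⟨B, hB, -, V, h1, h2, h3, hV⟩ := h
  refine ⟨B, hB, V.image Quotient.out, le_trans Finset.card_image_le hV, ?_⟩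
  have key : ∀ w : G, Quotient.mk (QuotientGroup.rightRel H) w ∈ V →
      ∃ r ∈ V.image Quotient.out, w * r⁻¹ ∈ H := by
    intro w hw
    refine ⟨Quotient.out (Quotient.mk (QuotientGroup.rightRel H) w),
      Finset.mem_image_of_mem _ hw, ?_⟩
    have h4 : (QuotientGroup.rightRel H) (Quotient.out
        (Quotient.mk (QuotientGroup.rightRel H) w)) w :=
      Quotient.exact (Quotient.out_eq _)
    exact QuotientGroup.rightRel_apply.1 h4
  rintro w (hw | ⟨b, hb, rfl | rfl⟩)
  · exact key w (h1 w hw)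
  · exact key _ (h2 b hb)
  · exact key _ (h3 b hb)

private theorem hub_of_fin {G : Type} [Group G] (N : Subgroup G) {m : ℕ} (a : Fin m → G)
    (ha : ∀ i, a i ∈ N)
    (h : ∀ c ∈ N, ∀ d ∈ N, Pool.Agent.Lib.MP_354e85_al.Lim.HubSet
      (Subgroup.closure (Set.range a)) N c d) : Hub N := by
  classical
  refine ⟨Finset.univ.image a, ?_, ?_⟩
  · intro s hs
    obtain ⟨i, -, rfl⟩ := Finset.mem_image.1 hs
    exact ha i
  · intro c hc d hd
    have e : ((Finset.univ.image a : Finset G) : Set G) = Set.range a := by simp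
    rw [e]
    exact isPat_of_hubSet (h c hc d hd)

theorem hub_of_not_tarski6 {G : Type} [Group G] (N : Subgroup G) (h : ¬ TarskiLE G 6) :
    Hub N := by
  obtain ⟨a, ha, h2⟩ := Pool.Agent.Lib.MP_354e85_al.Lim.exists_hub h N
  exact hub_of_fin N a ha h2

theorem hub_of_not_tarski5 {G : Type} [Group G] (N : Subgroup G) (h : ¬ TarskiLE G 5) (a : G)
    (ha : a ∈ N) (hord : ∀ n : ℕ, 0 < n → a ^ n ≠ 1) : Hub N := by
  obtain ⟨a, ha, h2⟩ := Pool.Agent.Lib.MP_354e85_al.Lim.exists_hub' h N ⟨a, ha, hord⟩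
  exact hub_of_fin N a ha h2

end RLim
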