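import Mathlib

/-! An inequality for pair sums. -/

namespace RLim

/-- Numbers in `[0, 1]` with all pair sums at most one. -/
theorem sum_pairs_le {ι : Type*} [DecidableEq ι] (S : Finset ι) (f : ι → ENNReal)
    (h1 : ∀ i ∈ S, f i ≤ 1) (h2 : ∀ i ∈ S, ∀ j ∈ S, i ≠ j → f i + f j ≤ 1) :
    2 * ∑ i ∈ S, f i ≤ (S.card : ENNReal) + 1 := by
  sorry

end RLim
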