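import Pool.Agent.Lib.MP_354e85_al.RL.Basic

/-! Root labels of a spanning forest towards a section `Y`. -/

open MeasureTheory Set

namespace RLim

variable {G : Type} [Group G] [Countable G] {Z : Type} [MeasurableSpace Z] {μ : Measure Z}

namespace Gauge

/-- The group element of a step option. -/
def mv (o : G × Bool) : G := if o.2 then o.1 else o.1⁻¹

/-- The points at which a step option is available. -/
def Av (act : G → Z → Z) (E : G → Set Z) (o : G × Bool) : Set Z :=
  if o.2 then E o.1 else {z | act o.1⁻¹ z ∈ E o.1}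

/-- Points which reach `Y` in at most `n` steps. -/
def B (act : G → Z → Z) (E : G → Set Z) (Y : Set Z) : ℕ → Set Z
  | 0 => Y
  | n + 1 => B act E Y n ∪ {z | ∃ o : G × Bool, z ∈ Av act E o ∧ act (mv o) z ∈ B act E Y n}

/-- `o` is the first option at `z` leading from level `n + 1` to level at most `n`. -/
def First (act : G → Z → Z) (E : G → Set Z) (Y : Set Z) (enc : G × Bool → ℕ) (n : ℕ)
    (o : G × Bool) (z : Z) : Prop :=
  z ∉ B act E Y n ∧ (z ∈ Av act E o ∧ act (mv o) z ∈ B act E Y n) ∧
    ∀ o', enc o' < enc o → ¬ (z ∈ Av act E o' ∧ act (mv o') z ∈ B act E Y n)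

open Classical in
/-- Root labels for the points of level at most `n`. -/
noncomputable def rho (act : G → Z → Z) (E : G → Set Z) (Y : Set Z) (enc : G × Bool → ℕ) :
    ℕ → Z → G
  | 0 => fun _ => 1
  | n + 1 => fun z => if z ∈ B act E Y n then rho act E Y enc n z else
      if h : ∃ o, First act E Y enc n o z then
        rho act E Y enc n (act (mv h.choose) z) * mv h.choose else 1

open Classical in
/-- The root label. -/
noncomputable def rh (act : G → Z → Z) (E : G → Set Z) (Y : Set Z) (enc : G × Bool → ℕ)
    (z : Z) : G :=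
  if h : ∃ n, z ∈ B act E Y n then rho act E Y enc (Nat.find h) z else 1

variable {act : G → Z → Z} {E : G → Set Z} {Y : Set Z} {enc : G × Bool → ℕ}

omit [Countable G] [MeasurableSpace Z] in
theorem B_mono : Monotone (B act E Y) :=
  monotone_nat_of_le_succ fun _ => subset_union_left

omit [Countable G] [MeasurableSpace Z] in
theorem First.mem {n : ℕ} {o : G × Bool} {z : Z} (h : First act E Y enc n o z) :
    z ∈ B act E Y (n + 1) := Or.inr ⟨o, h.2.1⟩

omit [Countable G] [MeasurableSpace Z] in
theorem First.uniq (he : Function.Injective enc) {n : ℕ} {o o' : G × Bool} {z : Z}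
    (h : First act E Y enc n o z) (h' : First act E Y enc n o' z) : o = o' := by
  apply he
  rcases lt_trichotomy (enc o) (enc o') with hlt | heq | hgt
  · exact absurd h.2.1 (h'.2.2 o hlt)
  · exact heq
  · exact absurd h'.2.1 (h.2.2 o' hgt)

omit [Countable G] [MeasurableSpace Z] in
theorem First.level {n n' : ℕ} {o o' : G × Bool} {z : Z}
    (h : First act E Y enc n o z) (h' : First act E Y enc n' o' z) : n = n' := by
  rcases lt_trichotomy n n' with hlt | heq | hgt
  · exact absurd (B_mono (Nat.succ_le_of_lt hlt) h.mem) h'.1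
  · exact heq
  · exact absurd (B_mono (Nat.succ_le_of_lt hgt) h'.mem) h.1

omit [Countable G] [MeasurableSpace Z] in
theorem exists_first {n : ℕ} {z : Z} (h1 : z ∉ B act E Y n)
    (h2 : z ∈ B act E Y (n + 1)) : ∃ o, First act E Y enc n o z := by
  classical
  have hex : ∃ o : G × Bool, z ∈ Av act E o ∧ act (mv o) z ∈ B act E Y n := by
    rcases h2 with h2 | h2
    · exact absurd h2 h1
    · exact h2
  have hex2 : ∃ k, ∃ o : G × Bool, enc o = k ∧ (z ∈ Av act E o ∧ act (mv o) z ∈ B act E Y n) := by
    obtain ⟨o, ho⟩ := hex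
    exact ⟨enc o, o, rfl, ho⟩
  obtain ⟨o, ho1, ho2⟩ := Nat.find_spec hex2
  refine ⟨o, h1, ho2, fun o' hlt hc => ?_⟩
  rw [ho1] at hlt
  exact Nat.find_min hex2 hlt ⟨o', rfl, hc⟩

omit [Countable G] [MeasurableSpace Z] in
theorem rho_succ_mem {n : ℕ} {z : Z} (h : z ∈ B act E Y n) :
    rho act E Y enc (n + 1) z = rho act E Y enc n z := by
  classical
  simp only [rho, if_pos h]

omit [Countable G] [MeasurableSpace Z] in
theorem rho_stable {n m : ℕ} (hnm : n ≤ m) {z : Z} (h : z ∈ B act E Y n) :
    rho act E Y enc m z = rho act E Y enc n z := by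
  induction m, hnm using Nat.le_induction with
  | base => rfl
  | succ m hm ih => rw [rho_succ_mem (B_mono hm h), ih]

omit [Countable G] [MeasurableSpace Z] in
theorem rho_first (he : Function.Injective enc) {n : ℕ} {o : G × Bool} {z : Z}
    (h : First act E Y enc n o z) :
    rho act E Y enc (n + 1) z = rho act E Y enc n (act (mv o) z) * mv o := by
  classical
  have hex : ∃ o, First act E Y enc n o z := ⟨o, h⟩
  have hc : hex.choose = o := hex.choose_spec.uniq he h
  simp only [rho, if_neg h.1, dif_pos hex, hc]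

omit [Countable G] [MeasurableSpace Z] in
theorem rho_of_not {n : ℕ} {z : Z} (h : z ∉ B act E Y (n + 1)) :
    rho act E Y enc (n + 1) z = 1 := by
  classical
  have h1 : z ∉ B act E Y n := fun hc => h (B_mono (Nat.le_succ n) hc)
  have h2 : ¬ ∃ o, First act E Y enc n o z := fun ⟨o, ho⟩ => h ho.mem
  simp only [rho, if_neg h1, dif_neg h2]

omit [Countable G] [MeasurableSpace Z] in
theorem rh_mem {n : ℕ} {z : Z} (h : z ∈ B act E Y n) :
    rh act E Y enc z = rho act E Y enc n z := by
  classical
  have hex : ∃ n, z ∈ B act E Y n := ⟨n, h⟩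
  simp only [rh, dif_pos hex]
  exact (rho_stable (Nat.find_min' hex h) (Nat.find_spec hex)).symm

omit [Countable G] [MeasurableSpace Z] in
theorem rh_not {z : Z} (h : ∀ n, z ∉ B act E Y n) : rh act E Y enc z = 1 := by
  classical
  have hex : ¬ ∃ n, z ∈ B act E Y n := fun ⟨n, hn⟩ => h n hn
  simp only [rh, dif_neg hex]

omit [Countable G] [MeasurableSpace Z] in
theorem rh_first (he : Function.Injective enc) {n : ℕ} {o : G × Bool} {z : Z}
    (h : First act E Y enc n o z) :
    rh act E Y enc z = rh act E Y enc (act (mv o) z) * mv o := by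
  rw [rh_mem h.mem, rho_first he h, rh_mem h.2.1.2]

omit [Countable G] [MeasurableSpace Z] in
theorem rh_zero {z : Z} (h : z ∈ Y) : rh act E Y enc z = 1 := by
  rw [rh_mem (n := 0) (show z ∈ B act E Y 0 from h)]
  rfl

section meas

variable (α : PA G μ)

omit [Countable G] in
theorem meas_Av (hE : ∀ s, MeasurableSet (E s)) (o : G × Bool) :
    MeasurableSet (Av α.act E o) := by
  unfold Av
  split_ifs
  · exact hE _
  · exact α.measurable _ (hE _)

theorem meas_B (hE : ∀ s, MeasurableSet (E s)) (hY : MeasurableSet Y) (n : ℕ) :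
    MeasurableSet (B α.act E Y n) := by
  induction n with
  | zero => exact hY
  | succ n ih =>
    have : B α.act E Y (n + 1) = B α.act E Y n ∪
        ⋃ o : G × Bool, (Av α.act E o ∩ α.act (mv o) ⁻¹' B α.act E Y n) := by
      ext z
      simp only [B, mem_union, mem_setOf_eq, mem_iUnion, mem_inter_iff, mem_preimage]
    rw [this]
    exact ih.union (MeasurableSet.iUnion fun o =>
      (meas_Av α hE o).inter (α.measurable _ ih))

theorem meas_First (hE : ∀ s, MeasurableSet (E s)) (hY : MeasurableSet Y) (n : ℕ)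
    (o : G × Bool) : MeasurableSet {z | First α.act E Y enc n o z} := by
  have : {z | First α.act E Y enc n o z} = (B α.act E Y n)ᶜ ∩
      (Av α.act E o ∩ α.act (mv o) ⁻¹' B α.act E Y n) ∩
      ⋂ o' : G × Bool, {z | enc o' < enc o →
        ¬ (z ∈ Av α.act E o' ∧ α.act (mv o') z ∈ B α.act E Y n)} := by
    ext z
    simp only [First, mem_setOf_eq, mem_inter_iff, mem_compl_iff, mem_preimage, mem_iInter]
    tauto
  rw [this]
  refine ((meas_B α hE hY n).compl.inter ((meas_Av α hE o).inter
    (α.measurable _ (meas_B α hE hY n)))).inter (MeasurableSet.iInter fun o' => ?_)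
  by_cases hlt : enc o' < enc o
  · have h2 : {z | enc o' < enc o → ¬ (z ∈ Av α.act E o' ∧ α.act (mv o') z ∈ B α.act E Y n)} =
        (Av α.act E o' ∩ α.act (mv o') ⁻¹' B α.act E Y n)ᶜ := by
      ext z
      simp only [hlt, true_imp_iff, mem_setOf_eq, mem_compl_iff, mem_inter_iff, mem_preimage]
    rw [h2]
    exact ((meas_Av α hE o').inter (α.measurable _ (meas_B α hE hY n))).compl
  · have h2 : {z | enc o' < enc o → ¬ (z ∈ Av α.act E o' ∧ α.act (mv o') z ∈ B α.act E Y n)} =
        univ := by
      ext z
      simp only [hlt, false_imp_iff, mem_setOf_eq, mem_univ]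
    rw [h2]
    exact MeasurableSet.univ

theorem meas_rho (he : Function.Injective enc) (hE : ∀ s, MeasurableSet (E s))
    (hY : MeasurableSet Y) (n : ℕ) (g : G) :
    MeasurableSet {z | rho α.act E Y enc n z = g} := by
  induction n generalizing g with
  | zero =>
    have : {z | rho α.act E Y enc 0 z = g} = {z : Z | (1 : G) = g} := rfl
    rw [this]
    exact MeasurableSet.const _
  | succ n ih =>
    have : {z | rho α.act E Y enc (n + 1) z = g} =
        (B α.act E Y n ∩ {z | rho α.act E Y enc n z = g}) ∪
        (⋃ o : G × Bool, ({z | First α.act E Y enc n o z} ∩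
          α.act (mv o) ⁻¹' {z | rho α.act E Y enc n z = g * (mv o)⁻¹})) ∪
        ((B α.act E Y (n + 1))ᶜ ∩ {z | (1 : G) = g}) := by
      ext z
      simp only [mem_setOf_eq, mem_union, mem_iUnion, mem_inter_iff, mem_preimage,
        mem_compl_iff]
      by_cases h1 : z ∈ B α.act E Y n
      · have h2 : z ∈ B α.act E Y (n + 1) := B_mono (Nat.le_succ n) h1
        rw [rho_succ_mem h1]
        constructor
        · intro h
          exact Or.inl (Or.inl ⟨h1, h⟩)
        · rintro ((⟨_, h⟩ | ⟨o, ho, _⟩) | ⟨h, _⟩)
          · exact h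
          · exact absurd h1 ho.1
          · exact absurd h2 h
      · by_cases h2 : z ∈ B α.act E Y (n + 1)
        · obtain ⟨o, ho⟩ := exists_first (enc := enc) h1 h2
          rw [rho_first he ho]
          constructor
          · intro h
            refine Or.inl (Or.inr ⟨o, ho, ?_⟩)
            rw [← h, mul_inv_cancel_right]
          · rintro ((⟨h, _⟩ | ⟨o', ho', h⟩) | ⟨h, _⟩)
            · exact absurd h h1
            · have := ho.uniq he ho'
              subst this
              rw [h, inv_mul_cancel_right]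
            · exact absurd h2 h
        · rw [rho_of_not h2]
          constructor
          · intro h
            exact Or.inr ⟨h2, h⟩
          · rintro ((⟨h, _⟩ | ⟨o', ho', h⟩) | ⟨_, h⟩)
            · exact absurd h h1
            · exact absurd ho'.mem h2
            · exact h
    rw [this]
    refine (((meas_B α hE hY n).inter (ih g)).union (MeasurableSet.iUnion fun o =>
      (meas_First α hE hY n o).inter (α.measurable _ (ih _)))).union
      ((meas_B α hE hY (n + 1)).compl.inter (MeasurableSet.const _))

theorem meas_rh (he : Function.Injective enc) (hE : ∀ s, MeasurableSet (E s))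
    (hY : MeasurableSet Y) (g : G) :
    MeasurableSet {z | rh α.act E Y enc z = g} := by
  have : {z | rh α.act E Y enc z = g} =
      (⋃ n, (B α.act E Y n ∩ {z | rho α.act E Y enc n z = g})) ∪
      ((⋃ n, B α.act E Y n)ᶜ ∩ {z | (1 : G) = g}) := by
    ext z
    simp only [mem_setOf_eq, mem_union, mem_iUnion, mem_inter_iff, mem_compl_iff, not_exists]
    by_cases h : ∃ n, z ∈ B α.act E Y n
    · obtain ⟨n, hn⟩ := h
      constructor
      · intro h
        exact Or.inl ⟨n, hn, by rw [← rh_mem hn]; exact h⟩
      · rintro (⟨m, hm, h⟩ | ⟨h, _⟩)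
        · rw [rh_mem hm]; exact h
        · exact absurd hn (h n)
    · have h' : ∀ n, z ∉ B α.act E Y n := fun n hn => h ⟨n, hn⟩
      rw [rh_not h']
      constructor
      · intro h
        exact Or.inr ⟨h', h⟩
      · rintro (⟨m, hm, _⟩ | ⟨_, h⟩)
        · exact absurd hm (h' m)
        · exact h
  rw [this]
  exact (MeasurableSet.iUnion fun n => (meas_B α hE hY n).inter (meas_rho α he hE hY n g)).union
    ((MeasurableSet.iUnion fun n => meas_B α hE hY n).compl.inter (MeasurableSet.const _))

omit [Countable G] in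
theorem reach {z : Z} {g h : G} (hc : Conn α.act E z h g) (hg : α.act g z ∈ Y) :
    ∃ n, α.act h z ∈ B α.act E Y n := by
  induction hc using Relation.ReflTransGen.head_induction_on with
  | refl => exact ⟨0, hg⟩
  | @head a c hst _ ih =>
    obtain ⟨n, hn⟩ := ih
    obtain ⟨s, ⟨h1, h2⟩ | ⟨h1, h2⟩⟩ := hst
    · refine ⟨n + 1, Or.inr ⟨(s, true), ?_, ?_⟩⟩
      · simpa [Av] using h1
      · simp only [mv, if_true]
        rw [← α.mul, ← h2]
        exact hn
    · have h3 : α.act s⁻¹ (α.act a z) = α.act c z := by
        rw [← α.mul, h2, inv_mul_cancel_left]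
      refine ⟨n + 1, Or.inr ⟨(s, false), ?_, ?_⟩⟩
      · simp only [Av, Bool.false_eq_true, if_false, mem_setOf_eq]
        rw [h3]; exact h1
      · simp only [mv, Bool.false_eq_true, if_false]
        rw [h3]
        exact hn

omit [Countable G] in
theorem root_mem (he : Function.Injective enc) (n : ℕ) {z : Z} (h : z ∈ B α.act E Y n) :
    α.act (rh α.act E Y enc z) z ∈ Y := by
  induction n generalizing z with
  | zero =>
    have hz : z ∈ Y := h
    rw [rh_zero hz, α.one]
    exact hz
  | succ n ih =>
    by_cases h1 : z ∈ B α.act E Y n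
    · exact ih h1
    · obtain ⟨o, ho⟩ := exists_first (enc := enc) h1 h
      rw [rh_first he ho, α.mul]
      exact ih ho.2.1.2

end meas

end Gauge

open Gauge in
/-- The gauge lemma: there are measurable root labels `ρ z` (moving `z` into `Y`) such that the
edges `(z, s)` of `E` with nontrivial moved label `ρ (s z) * s * (ρ z)⁻¹` have total measure at
most `cost E - μ Yᶜ` (all edges of a spanning forest towards `Y` have trivial moved label). -/
theorem exists_gauge [IsProbabilityMeasure μ] (α : PA G μ) (E : G → Set Z)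
    (hE : ∀ s, MeasurableSet (E s)) (Y : Set Z) (hY : MeasurableSet Y)
    (hreach : ∀ᵐ z ∂μ, ∃ g, Conn α.act E z 1 g ∧ α.act g z ∈ Y) :
    ∃ ρ : Z → G, (∀ g, MeasurableSet {z | ρ z = g}) ∧ (∀ z ∈ Y, ρ z = 1) ∧
      (∀ᵐ z ∂μ, α.act (ρ z) z ∈ Y) ∧
      (∑' s, μ {z | z ∈ E s ∧ ρ (α.act s z) * s * (ρ z)⁻¹ ≠ 1}) + μ Yᶜ ≤ cost μ E := by
  obtain ⟨enc, he⟩ := exists_injective_nat (G × Bool)
  have hB : ∀ᵐ z ∂μ, ∃ n, z ∈ B α.act E Y n := by
    filter_upwards [hreach] with z ⟨g, hc, hg⟩
    obtain ⟨n, hn⟩ := reach α hc hg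
    rw [α.one] at hn
    exact ⟨n, hn⟩
  let P : G × Bool → Set Z := fun o => ⋃ n, {z | First α.act E Y enc n o z}
  have hPm : ∀ o, MeasurableSet (P o) := fun o => MeasurableSet.iUnion fun n =>
    meas_First α hE hY n o
  refine ⟨rh α.act E Y enc, meas_rh α he hE hY, fun z hz => rh_zero hz, ?_, ?_⟩
  · filter_upwards [hB] with z ⟨n, hn⟩
    exact root_mem α he n hn
  · set ρ := rh α.act E Y enc with hρ
    -- the complement of `Y` is covered by the sets `P o`
    have hcov : μ Yᶜ ≤ ∑' o, μ (P o) := by
      refine le_trans ?_ (measure_iUnion_le P)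
      refine measure_mono_ae ?_
      filter_upwards [hB] with z ⟨n, hn⟩ hz
      have hex : ∃ n, z ∈ B α.act E Y (n + 1) ∧ z ∉ B α.act E Y n := by
        by_contra hcon
        push Not at hcon
        have : ∀ m, z ∉ B α.act E Y m := by
          intro m
          induction m with
          | zero => exact hz
          | succ m ih => exact fun hc => ih (hcon m hc)
        exact this n hn
      obtain ⟨m, hm1, hm2⟩ := hex
      obtain ⟨o, ho⟩ := exists_first (enc := enc) hm2 hm1
      exact mem_iUnion.2 ⟨o, mem_iUnion.2 ⟨m, ho⟩⟩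
    have hsum : ∑' o, μ (P o) = ∑' s, (μ (P (s, true)) + μ (P (s, false))) := by
      rw [ENNReal.tsum_prod' (f := fun o => μ (P o))]
      refine tsum_congr fun s => ?_
      rw [tsum_bool, add_comm]
    rw [hsum] at hcov
    refine le_trans (add_le_add_right hcov _) ?_
    rw [← ENNReal.tsum_add]
    refine ENNReal.tsum_le_tsum fun s => ?_
    have hQ : μ (P (s, false)) = μ (α.act s ⁻¹' P (s, false)) := (α.preimage s (hPm _)).symm
    rw [hQ]
    have hd1 : Disjoint (P (s, true)) (α.act s ⁻¹' P (s, false)) := by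
      rw [Set.disjoint_left]
      intro w hw1 hw2
      obtain ⟨n, hn⟩ := mem_iUnion.1 hw1
      obtain ⟨m, hm⟩ := mem_iUnion.1 hw2
      have hn1 : w ∉ B α.act E Y n := hn.1
      have hn2 : α.act s w ∈ B α.act E Y n := by
        have := hn.2.1.2
        simpa [mv] using this
      have hm1 : α.act s w ∉ B α.act E Y m := hm.1
      have hm2 : w ∈ B α.act E Y m := by
        have := hm.2.1.2
        simp only [mv, Bool.false_eq_true, if_false, α.inv_act] at this
        exact this
      rcases le_total n m with h | h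
      · exact hm1 (B_mono h hn2)
      · exact hn1 (B_mono h hm2)
    have ht1 : ∀ w ∈ P (s, true), w ∈ E s ∧ ρ (α.act s w) * s * (ρ w)⁻¹ = 1 := by
      intro w hw
      obtain ⟨n, hn⟩ := mem_iUnion.1 hw
      refine ⟨by simpa [Av] using hn.2.1.1, ?_⟩
      have := rh_first he hn
      simp only [mv, if_true] at this
      rw [hρ, this, mul_inv_cancel]
    have ht2 : ∀ w ∈ α.act s ⁻¹' P (s, false),
        w ∈ E s ∧ ρ (α.act s w) * s * (ρ w)⁻¹ = 1 := by
      intro w hw
      obtain ⟨n, hn⟩ := mem_iUnion.1 hw
      refine ⟨?_, ?_⟩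
      · have := hn.2.1.1
        simp only [Av, Bool.false_eq_true, if_false, mem_setOf_eq, α.inv_act] at this
        exact this
      · have := rh_first he hn
        simp only [mv, Bool.false_eq_true, if_false, α.inv_act] at this
        rw [hρ, this, inv_mul_cancel_right, mul_inv_cancel]
    have hd2 : Disjoint {z | z ∈ E s ∧ ρ (α.act s z) * s * (ρ z)⁻¹ ≠ 1}
        (P (s, true) ∪ α.act s ⁻¹' P (s, false)) := by
      rw [Set.disjoint_left]
      rintro w ⟨_, hw1⟩ (hw2 | hw2)
      · exact hw1 (ht1 w hw2).2
      · exact hw1 (ht2 w hw2).2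
    rw [← measure_union hd1 (α.measurable s (hPm _)),
      ← measure_union hd2 ((hPm _).union (α.measurable s (hPm _)))]
    refine measure_mono ?_
    rintro w (hw | hw | hw)
    · exact hw.1
    · exact (ht1 w hw).1
    · exact (ht2 w hw).1

end RLim
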