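import Pool.Agent.Lib.MP_354e85_al.RL.Val
import Pool.Agent.Lib.MP_354e85_al.Cost

/-! The start of the iteration. -/

open MeasureTheory Set

namespace RLim

open Pool.Agent.Lib.MP_354e85_al (CostGE)

theorem CostGE_anti {G : Type} [Group G] {θ θ' : ℝ} (h : θ ≤ θ') (hc : CostGE G θ') :
    CostGE G θ := by
  intro a h1 h2 h3 h4 A φ hA hφ hinj hφa hgen
  exact (ENNReal.ofReal_le_ofReal (by linarith)).trans
    (hc a h1 h2 h3 h4 A φ hA hφ hinj hφa hgen)

/-- The trivial action on a point. -/
theorem val_start {G : Type} [Group G] [Countable G] (hfg : Group.FG G) (N : Subgroup G) :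
    ∃ x : ℝ, Val N x := by
  classical
  obtain ⟨S, hS, hfin⟩ := Group.fg_iff.1 hfg
  let T : Finset G := hfin.toFinset
  have hT : ∀ s, s ∈ T ↔ s ∈ S := fun s => hfin.mem_toFinset
  let E : G → Set Unit := fun s => if s ∈ T then univ else ∅
  let α : PA G (Measure.dirac ()) :=
    { act := fun _ z => z
      one := fun _ => rfl
      mul := fun _ _ _ => rfl
      mp := fun _ => MeasurePreserving.id _ }
  refine ⟨T.card, Unit, inferInstance, inferInstance, Measure.dirac (), inferInstance, α, E,
    fun s => ?_, fun _ _ _ => rfl, ?_, ?_⟩
  · dsimp only [E]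
    split_ifs
    · exact MeasurableSet.univ
    · exact MeasurableSet.empty
  · refine Filter.Eventually.of_forall fun z g => ?_
    have key : ∀ g : G, g ∈ Subgroup.closure S → ∀ k, Conn α.act E z k (g * k) := by
      intro g hg
      induction hg using Subgroup.closure_induction with
      | mem s hs =>
        intro k
        refine Conn.of_edge ?_
        have hs' : s ∈ T := (hT s).2 hs
        simp only [E, if_pos hs', mem_univ]
      | one =>
        intro k
        rw [one_mul]
        exact Conn.refl _ _ _ _
      | mul a b _ _ ha hb =>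
        intro k
        rw [mul_assoc]
        exact (hb k).trans (ha (b * k))
      | inv a _ ha =>
        intro k
        have h1 := ha (a⁻¹ * k)
        rw [mul_inv_cancel_left] at h1
        exact h1.symm
    have h1 := key g (by rw [hS]; exact Subgroup.mem_top g) 1
    rwa [mul_one] at h1
  · unfold cost
    rw [ENNReal.ofReal_natCast, tsum_eq_sum (s := T)]
    · calc ∑ b ∈ T, (Measure.dirac ()) (E b) ≤ ∑ b ∈ T, (1 : ENNReal) :=
            Finset.sum_le_sum fun b _ => prob_le_one
        _ = T.card := by rw [Finset.sum_const, nsmul_eq_mul, mul_one]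
    · intro b hb
      simp only [E, if_neg hb, measure_empty]

end RLim
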