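import Pool.Agent.Lib.MP_354e85_al.RL.Pull
import Pool.Agent.Lib.MP_354e85_al.Lim.CostGen

/-! Every graphing that generates the groupoid of any probability measure preserving action of
`G` has cost at least `1 + ε`, if all free actions of `G` on `[0, 1]` have. -/

open MeasureTheory Set

namespace RLim

open Pool.Agent.Lib.MP_354e85_al (CostGE)

theorem cost_ge_of_gen {G : Type} [Group G] [Countable G] {ε : ℝ} (hcost : CostGE G ε)
    {Z : Type} [MeasurableSpace Z] [StandardBorelSpace Z] {μ : Measure Z}
    [IsProbabilityMeasure μ] (α : PA G μ) (E : G → Set Z) (hE : ∀ s, MeasurableSet (E s))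
    (hgen : Gen μ α.act E) : ENNReal.ofReal (1 + ε) ≤ cost μ E := by
  classical
  obtain ⟨e, he⟩ := Countable.exists_injective_nat G
  let s : ℕ → G := Function.extend e id (fun _ => 1)
  let B : ℕ → Set Z := Function.extend e E (fun _ => ∅)
  have hs : ∀ g, s (e g) = g := fun g => he.extend_apply _ _ _
  have hBe : ∀ g, B (e g) = E g := fun g => he.extend_apply _ _ _
  have hBn : ∀ n, n ∉ range e → B n = ∅ := fun n hn =>
    Function.extend_apply' _ _ _ (fun ⟨g, hg⟩ => hn ⟨g, hg⟩)
  have hB : ∀ n, MeasurableSet (B n) := by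
    intro n
    by_cases hn : n ∈ range e
    · obtain ⟨g, rfl⟩ := hn
      rw [hBe]
      exact hE g
    · rw [hBn n hn]
      exact MeasurableSet.empty
  have hsum : ∑' n, μ (B n) = cost μ E := by
    have h1 : (fun n => μ (B n)) = Function.extend e (fun g => μ (E g)) 0 := by
      funext n
      by_cases hn : n ∈ range e
      · obtain ⟨g, rfl⟩ := hn
        rw [hBe, he.extend_apply]
      · rw [hBn n hn, measure_empty,
          Function.extend_apply' _ _ _ (fun ⟨g, hg⟩ => hn ⟨g, hg⟩)]
        rfl
    rw [h1, tsum_extend_zero he]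
    rfl
  rw [← hsum]
  refine Pool.Agent.Lib.MP_354e85_al.Lim.cost_gen hcost μ α.act α.one α.mul α.mp s B hB ?_
  filter_upwards [hgen] with z hz g
  have hstep : ∀ x y : G, Step α.act E z x y →
      Relation.EqvGen (Pool.Agent.Lib.MP_354e85_al.Lim.Edge α.act s B z) x y := by
    rintro x y ⟨t, ⟨h1, h2⟩ | ⟨h1, h2⟩⟩
    · refine Relation.EqvGen.rel _ _ ⟨e t, ?_, ?_⟩
      · rw [hBe]
        exact h1
      · rw [hs, h2]
    · refine Relation.EqvGen.symm _ _ (Relation.EqvGen.rel _ _ ⟨e t, ?_, ?_⟩)
      · rw [hBe]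
        exact h1
      · rw [hs, h2]
  have key : ∀ x y : G, Conn α.act E z x y →
      Relation.EqvGen (Pool.Agent.Lib.MP_354e85_al.Lim.Edge α.act s B z) x y := by
    intro x y hxy
    induction hxy with
    | refl => exact Relation.EqvGen.refl _
    | tail _ hst ih => exact ih.trans _ _ _ (hstep _ _ hst)
  exact key 1 g (hz g)

end RLim
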