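import Pool.Agent.Lib.MP_354e85_al.RL.Step
import Pool.Agent.Lib.MP_354e85_al.RL.Start
import Pool.Agent.Lib.MP_354e85_al.RL.TransferA

/-! The iteration. -/

open MeasureTheory Set

namespace RLim

open Pool.Agent.Lib.MP_354e85_al (CostGE)

theorem Val.mono {G : Type} [Group G] {N : Subgroup G} {x y : ℝ} (hxy : x ≤ y)
    (h : Val N x) : Val N y := by
  obtain ⟨Z, i1, i2, μ, i3, α, E, hE, htriv, hgen, hcost⟩ := h
  exact ⟨Z, i1, i2, μ, i3, α, E, hE, htriv, hgen, hcost.trans (ENNReal.ofReal_le_ofReal hxy)⟩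

theorem core {G : Type} [Group G] [Countable G] (hfg : Group.FG G) (N : ℕ → Subgroup G)
    (hnorm : ∀ k, (N k).Normal) (hanti : Antitone N) (hbot : ⨅ k, N k = ⊥)
    (hinf : ∀ k, Infinite (G ⧸ N k)) (ε ε' : ℝ) (hε : 0 < ε) (hε' : ε' < ε)
    (hcheap : ∀ k, haveI := hnorm k; ¬ CostGE (G ⧸ N k) (ε' / 2)) (hhub : ∀ k, Hub (N k)) :
    ¬ CostGE G ε := by
  intro hG
  obtain ⟨e, he0, hee, heε⟩ : ∃ e : ℝ, 0 ≤ e ∧ ε' ≤ e ∧ e < ε :=
    ⟨max ε' 0, le_max_right _ _, le_max_left _ _, max_lt hε' hε⟩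
  have hcheap' : ∀ k, haveI := hnorm k; ¬ CostGE (G ⧸ N k) (e / 2) := by
    intro k
    have := hnorm k
    intro hc
    exact hcheap k (CostGE_anti (by linarith) hc)
  obtain ⟨δ, hδ0, hδ⟩ : ∃ δ : ℝ, 0 < δ ∧ 2 * (e / 2 + δ) < ε :=
    ⟨(ε - e) / 4, by linarith, by linarith⟩
  obtain ⟨x₀, hx₀⟩ := val_start hfg (N 0)
  have hall : ∀ n : ℕ, ∃ m, Val (N m) (1 + 2 * (e / 2 + δ) + (1 / 2 : ℝ) ^ n * |x₀ - 1|) := by
    intro n
    induction n with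
    | zero =>
      refine ⟨0, Val.mono ?_ hx₀⟩
      have h1 := le_abs_self (x₀ - 1)
      have h2 : (1 / 2 : ℝ) ^ 0 = 1 := pow_zero _
      rw [h2]
      linarith
    | succ n ih =>
      obtain ⟨m, hm⟩ := ih
      obtain ⟨m', hm'⟩ := step N hnorm hanti hbot m (hinf m) (e / 2) δ (by linarith) hδ0
        (hcheap' m) (hhub m) _ hm
      refine ⟨m', Val.mono (le_of_eq ?_) hm'⟩
      rw [pow_succ]
      ring
  obtain ⟨n, hn⟩ : ∃ n : ℕ, (1 / 2 : ℝ) ^ n * |x₀ - 1| < ε - 2 * (e / 2 + δ) := by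
    have ht : Filter.Tendsto (fun n : ℕ => (1 / 2 : ℝ) ^ n * |x₀ - 1|) Filter.atTop
        (nhds (0 * |x₀ - 1|)) :=
      (tendsto_pow_atTop_nhds_zero_of_lt_one (by norm_num) (by norm_num)).mul_const _
    rw [zero_mul] at ht
    have hpos : 0 < ε - 2 * (e / 2 + δ) := by linarith
    exact (ht.eventually (gt_mem_nhds hpos)).exists
  obtain ⟨m, hm⟩ := hall n
  obtain ⟨Z, i1, i2, μ, i3, α, E, hE, htriv, hgen, hcost⟩ := hm
  have h1 := cost_ge_of_gen hG α E hE hgen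
  have h2 := h1.trans hcost
  have h3 : ENNReal.ofReal (1 + 2 * (e / 2 + δ) + (1 / 2 : ℝ) ^ n * |x₀ - 1|) <
      ENNReal.ofReal (1 + ε) := by
    rw [ENNReal.ofReal_lt_ofReal_iff (by linarith)]
    linarith
  exact absurd h2 (not_le.mpr h3)

end RLim
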