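import Pool.Agent.Lib.MP_354e85_al.RL.Count

/-! The pair bound. -/

open MeasureTheory Set

namespace RLim

variable {G : Type} [Group G] [Countable G] {V : Type} [MeasurableSpace V] {ν : Measure V}

/-- The pair bound. -/
theorem kept_pair [IsProbabilityMeasure ν] (α : PA G ν) (H : Subgroup G) (S : Finset G)
    {κ : G → V → ℕ} (hκ : ∀ g j, MeasurableSet {u | κ g u = j}) {c d : G} (hc : c ∈ S)
    (hd : d ∈ S) (hcd : c ≠ d) (B : Finset G) (hB : IsPat H c d B)
    (hD : 2 * (B.card : ENNReal) * ν (Distinct α.act κ c d B)ᶜ ≤ 1) :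
    ν (kept α.act H S κ c) + ν (kept α.act H S κ d) ≤ 1 := by
  have hmc := measurable_kept α H S hκ c
  have hmd := measurable_kept α H S hκ d
  have hmD := measurable_distinct α hκ c d B
  set A := kept α.act H S κ c with hA
  set A' := kept α.act H S κ d with hA'
  have hcard0 : (B.card : ENNReal) ≠ 0 := by
    rw [Nat.cast_ne_zero]
    exact (Finset.card_pos.2 hB.1).ne'
  have hcard1 : (1 : ENNReal) ≤ (B.card : ENNReal) := by
    exact_mod_cast Finset.card_pos.2 hB.1
  have hcardT : (B.card : ENNReal) ≠ ⊤ := ENNReal.natCast_ne_top _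
  -- one indicator at the point `b u`
  have hint : ∀ (A : Set V), MeasurableSet A → ∀ b : G,
      ∫⁻ u, A.indicator (fun _ => (1 : ENNReal)) (α.act b u) ∂ν = ν A := by
    intro A hA b
    rw [(α.mp b).lintegral_comp (measurable_const.indicator hA)]
    rw [lintegral_indicator hA, lintegral_const, one_mul, Measure.restrict_apply_univ]
  have hmi : ∀ (A : Set V), MeasurableSet A → ∀ b : G,
      Measurable fun u => A.indicator (fun _ => (1 : ENNReal)) (α.act b u) := fun A hA b =>
    (measurable_const.indicator hA).comp (α.measurable b)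
  have hpt : ∀ u, (∑ b ∈ B, (A.indicator (fun _ => (1 : ENNReal)) (α.act b u) +
      A'.indicator (fun _ => (1 : ENNReal)) (α.act b u))) + 1 ≤
      (B.card : ENNReal) + (Distinct α.act κ c d B)ᶜ.indicator
        (fun _ => 2 * (B.card : ENNReal)) u := by
    intro u
    by_cases hu : u ∈ Distinct α.act κ c d B
    · have h1 := count_kept α.one α.mul H S κ hc hd hcd B hB u hu
      have hu' : u ∉ (Distinct α.act κ c d B)ᶜ := fun h => absurd hu h
      rw [indicator_of_notMem hu', add_zero]
      exact h1
    · rw [indicator_of_mem (show u ∈ (Distinct α.act κ c d B)ᶜ from hu)]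
      have h1 : ∀ (A : Set V) (x : V), A.indicator (fun _ => (1 : ENNReal)) x ≤ 1 := by
        intro A x
        by_cases hx : x ∈ A
        · rw [indicator_of_mem hx]
        · rw [indicator_of_notMem hx]
          exact zero_le_one
      have h2 : (∑ b ∈ B, (A.indicator (fun _ => (1 : ENNReal)) (α.act b u) +
          A'.indicator (fun _ => (1 : ENNReal)) (α.act b u))) ≤ ∑ _b ∈ B, (2 : ENNReal) := by
        refine Finset.sum_le_sum fun b _ => ?_
        rw [← one_add_one_eq_two]
        exact add_le_add (h1 _ _) (h1 _ _)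
      rw [Finset.sum_const, nsmul_eq_mul, mul_comm] at h2
      calc _ ≤ 2 * (B.card : ENNReal) + 1 := add_le_add h2 le_rfl
        _ ≤ 2 * (B.card : ENNReal) + (B.card : ENNReal) := add_le_add le_rfl hcard1
        _ = _ := add_comm _ _
  have hI := lintegral_mono (μ := ν) hpt
  have hms : ∀ b ∈ B, Measurable fun u => (A.indicator (fun _ => (1 : ENNReal)) (α.act b u) +
      A'.indicator (fun _ => (1 : ENNReal)) (α.act b u)) := fun b _ =>
    (hmi A hmc b).add (hmi A' hmd b)
  rw [lintegral_add_right _ measurable_const, lintegral_const, measure_univ, mul_one,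
    lintegral_finsetSum _ hms,
    lintegral_add_left measurable_const, lintegral_const, measure_univ, mul_one,
    lintegral_indicator hmD.compl, lintegral_const, Measure.restrict_apply_univ] at hI
  have hsum : ∑ b ∈ B, ∫⁻ u, (A.indicator (fun _ => (1 : ENNReal)) (α.act b u) +
      A'.indicator (fun _ => (1 : ENNReal)) (α.act b u)) ∂ν =
      (B.card : ENNReal) * (ν A + ν A') := by
    rw [Finset.sum_congr rfl (fun b _ => ?_), Finset.sum_const, nsmul_eq_mul]
    rw [lintegral_add_left (hmi A hmc b), hint A hmc b, hint A' hmd b]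
  rw [hsum] at hI
  have h3 : (B.card : ENNReal) * (ν A + ν A') + 1 ≤ (B.card : ENNReal) + 1 :=
    hI.trans (add_le_add le_rfl hD)
  have h4 : (B.card : ENNReal) * (ν A + ν A') ≤ (B.card : ENNReal) * 1 := by
    rw [mul_one]
    exact (ENNReal.add_le_add_iff_right ENNReal.one_ne_top).1 h3
  exact (ENNReal.mul_le_mul_iff_right hcard0 hcardT).1 h4

end RLim
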