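import Pool.Agent.Lib.MP_354e85_al.RL.Basic

/-! The percolation: a labelled edge is removed iff its ends are joined by hub edges and edges of
strictly lower class. -/

open MeasureTheory Set

namespace RLim

section defs

variable {G : Type} [Group G] {V : Type}

/-- All hub edges (labels in `H`) and the edges with labels in `S` and class below `j`. -/
def low (H : Subgroup G) (S : Finset G) (κ : G → V → ℕ) (j : ℕ) : G → Set V :=
  fun g => {u | g ∈ H ∨ (g ∈ S ∧ κ g u < j)}

/-- The points at which the edge with label `l` is kept. -/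
def kept (act : G → V → V) (H : Subgroup G) (S : Finset G) (κ : G → V → ℕ) (l : G) : Set V :=
  {u | ¬ Conn act (low H S κ (κ l u)) u 1 l}

/-- Hub edges and kept edges. -/
def percE (act : G → V → V) (H : Subgroup G) (S : Finset G) (κ : G → V → ℕ) : G → Set V :=
  fun g => {u | g ∈ H ∨ (g ∈ S ∧ u ∈ kept act H S κ g)}

theorem conn_perc {act : G → V → V} (hone : ∀ u, act 1 u = u)
    (hmul : ∀ g h u, act (g * h) u = act g (act h u)) (H : Subgroup G)
    (S : Finset G) (κ : G → V → ℕ) {l : G} (hl : l ∈ S) (u : V) :
    Conn act (percE act H S κ) u 1 l := by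
  have key : ∀ n : ℕ, ∀ l ∈ S, ∀ u : V, κ l u = n → Conn act (percE act H S κ) u 1 l := by
    intro n
    induction n using Nat.strong_induction_on with
    | _ n ih =>
      intro l hl u hn
      by_cases hk : u ∈ kept act H S κ l
      · have h1 : act 1 u ∈ percE act H S κ l := by
          rw [hone]
          exact Or.inr ⟨hl, hk⟩
        have h2 := Conn.of_edge h1
        rwa [mul_one] at h2
      · have hk' : Conn act (low H S κ (κ l u)) u 1 l := not_not.mp hk
        refine Conn.bind hmul ?_ hk'
        intro k s hs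
        rcases hs with hs | ⟨hs, hlt⟩
        · have h1 : act 1 (act k u) ∈ percE act H S κ s := Or.inl hs
          have h2 := Conn.of_edge h1
          rwa [mul_one] at h2
        · rw [hn] at hlt
          exact ih _ hlt s hs _ rfl
  exact key _ l hl u rfl

/-- `B` is a finite set such that `B`, `c B`, `d B` meet at most `|B|` right cosets of `H`. -/
def IsPat (H : Subgroup G) (c d : G) (B : Finset G) : Prop :=
  B.Nonempty ∧ ∃ R : Finset G, R.card ≤ B.card ∧
    ∀ w, (w ∈ B ∨ ∃ b ∈ B, w = c * b ∨ w = d * b) → ∃ r ∈ R, w * r⁻¹ ∈ H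

/-- All edges of the pattern over `u` have different classes. -/
def Distinct (act : G → V → V) (κ : G → V → ℕ) (c d : G) (B : Finset G) : Set V :=
  {u | ∀ b ∈ B, ∀ b' ∈ B, ∀ l ∈ ({c, d} : Set G), ∀ l' ∈ ({c, d} : Set G),
    κ l (act b u) = κ l' (act b' u) → b = b' ∧ l = l'}

end defs

section meas

variable {G : Type} [Group G] [Countable G] {V : Type} [MeasurableSpace V] {ν : Measure V}

theorem measurable_kept (α : PA G ν) (H : Subgroup G) (S : Finset G) {κ : G → V → ℕ}
    (hκ : ∀ g j, MeasurableSet {u | κ g u = j}) (l : G) :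
    MeasurableSet (kept α.act H S κ l) := by
  have hlow : ∀ j s, MeasurableSet (low H S κ j s) := by
    intro j s
    have heq : low H S κ j s = {_u : V | s ∈ H} ∪ ({_u : V | s ∈ S} ∩
        ⋃ i ∈ Finset.range j, {u | κ s u = i}) := by
      ext u
      simp only [low, mem_setOf_eq, mem_union, mem_inter_iff, mem_iUnion, Finset.mem_range]
      constructor
      · rintro (h | ⟨h1, h2⟩)
        · exact Or.inl h
        · exact Or.inr ⟨h1, _, h2, rfl⟩
      · rintro (h | ⟨h1, i, h2, h3⟩)
        · exact Or.inl h
        · exact Or.inr ⟨h1, h3 ▸ h2⟩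
    rw [heq]
    exact (MeasurableSet.const _).union ((MeasurableSet.const _).inter
      (Finset.measurableSet_biUnion _ fun i _ => hκ s i))
  have heq : kept α.act H S κ l = ⋃ j : ℕ, ({u | κ l u = j} ∩
      {u | Conn α.act (low H S κ j) u 1 l}ᶜ) := by
    ext u
    simp only [kept, mem_setOf_eq, mem_iUnion, mem_inter_iff, mem_compl_iff]
    constructor
    · intro h
      exact ⟨_, rfl, h⟩
    · rintro ⟨j, hj, h⟩
      rw [hj]
      exact h
  rw [heq]
  exact MeasurableSet.iUnion fun j => (hκ l j).inter
    (measurableSet_conn α (fun s => hlow j s) 1 l).compl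

theorem measurable_distinct (α : PA G ν) {κ : G → V → ℕ}
    (hκ : ∀ g j, MeasurableSet {u | κ g u = j}) (c d : G) (B : Finset G) :
    MeasurableSet (Distinct α.act κ c d B) := by
  have hm : ∀ l, Measurable (κ l) := fun l => measurable_to_countable' fun j => hκ l j
  have heq : Distinct α.act κ c d B = ⋂ b ∈ B, ⋂ b' ∈ B, ⋂ l ∈ ({c, d} : Set G),
      ⋂ l' ∈ ({c, d} : Set G), ({u | κ l (α.act b u) = κ l' (α.act b' u)}ᶜ ∪
        {_u : V | b = b' ∧ l = l'}) := by
    ext u
    simp only [Distinct, mem_setOf_eq, mem_iInter, mem_union, mem_compl_iff]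
    refine forall₅_congr fun b _ b' _ l => forall₃_congr fun _ l' _ => ?_
    exact imp_iff_not_or
  rw [heq]
  refine Finset.measurableSet_biInter _ fun b _ => Finset.measurableSet_biInter _ fun b' _ => ?_
  refine MeasurableSet.biInter (Set.to_countable _) fun l _ => ?_
  refine MeasurableSet.biInter (Set.to_countable _) fun l' _ => ?_
  exact (measurableSet_eq_fun ((hm l).comp (α.measurable b))
    ((hm l').comp (α.measurable b'))).compl.union (MeasurableSet.const _)

end meas

end RLim
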