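import Pool.Agent.Lib.MP_354e85_al.RL.Basic

/-! Products of actions and pull backs of graphings along equivariant maps. -/

open MeasureTheory Set

namespace RLim

variable {G : Type} [Group G]

/-- The diagonal action on a product. -/
def PA.prod {Z V : Type} [MeasurableSpace Z] [MeasurableSpace V] {μ : Measure Z} {ν : Measure V}
    [IsProbabilityMeasure μ] [IsProbabilityMeasure ν] (α : PA G μ) (β : PA G ν) :
    PA G (μ.prod ν) where
  act := fun g p => (α.act g p.1, β.act g p.2)
  one := by rintro ⟨z, v⟩; simp [α.one, β.one]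
  mul := by rintro g h ⟨z, v⟩; simp [α.mul, β.mul]
  mp := fun g => (α.mp g).prod (β.mp g)

/-- Pull back of a graphing. -/
def pull {W Z : Type} (π : W → Z) (E : G → Set Z) : G → Set W := fun s => π ⁻¹' E s

theorem conn_pull {W Z : Type} {actW : G → W → W} {actZ : G → Z → Z} {π : W → Z}
    (hπ : ∀ g w, π (actW g w) = actZ g (π w)) (E : G → Set Z) (w : W) (g h : G) :
    Conn actW (pull π E) w g h ↔ Conn actZ E (π w) g h := by
  have : Step actW (pull π E) w = Step actZ E (π w) := by
    funext g h
    simp only [Step, pull, mem_preimage, hπ]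
  unfold Conn
  rw [this]

variable {W Z : Type} [MeasurableSpace W] [MeasurableSpace Z] {μ : Measure W} {ν : Measure Z}

theorem measurable_pull {π : W → Z} (hπ : Measurable π) {E : G → Set Z}
    (hE : ∀ s, MeasurableSet (E s)) : ∀ s, MeasurableSet (pull π E s) := fun s => hπ (hE s)

theorem cost_pull {π : W → Z} (hπ : MeasurePreserving π μ ν) {E : G → Set Z}
    (hE : ∀ s, MeasurableSet (E s)) : cost μ (pull π E) = cost ν E := by
  unfold cost pull
  exact tsum_congr fun s => hπ.measure_preimage (hE s).nullMeasurableSet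

theorem gen_pull {π : W → Z} (hπ : MeasurePreserving π μ ν) {actW : G → W → W}
    {actZ : G → Z → Z} (he : ∀ g w, π (actW g w) = actZ g (π w)) {E : G → Set Z}
    (h : Gen ν actZ E) : Gen μ actW (pull π E) := by
  have h2 := hπ.quasiMeasurePreserving.ae h
  unfold Gen
  filter_upwards [h2] with w hw g
  rw [conn_pull he]
  exact hw g

theorem genMod_pull {N : Subgroup G} {π : W → Z} (hπ : MeasurePreserving π μ ν)
    {actW : G → W → W} {actZ : G → Z → Z} (he : ∀ g w, π (actW g w) = actZ g (π w))
    {E : G → Set Z} (h : GenMod N ν actZ E) : GenMod N μ actW (pull π E) := by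
  have h2 := hπ.quasiMeasurePreserving.ae h
  unfold GenMod
  filter_upwards [h2] with w hw g
  obtain ⟨n, hn, hc⟩ := hw g
  exact ⟨n, hn, (conn_pull he _ _ _ _).2 hc⟩

end RLim
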