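import Pool.Agent.Lib.MP_354e85_al.RL.Basic

/-! The finite sets of labels occurring at a point. -/

open MeasureTheory Set

namespace RLim

/-- The points at which exactly the labels in `S` occur. -/
def typ {G Z : Type} (L : G → Set Z) (S : Finset G) : Set Z := {z | ∀ s, z ∈ L s ↔ s ∈ S}

theorem measurable_typ {G Z : Type} [Countable G] [MeasurableSpace Z] {L : G → Set Z}
    (hL : ∀ s, MeasurableSet (L s)) (S : Finset G) : MeasurableSet (typ L S) := by
  have h : typ L S = ⋂ s, {z | z ∈ L s ↔ s ∈ S} := by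
    ext z
    simp [typ]
  rw [h]
  refine MeasurableSet.iInter fun s => ?_
  by_cases hs : s ∈ S
  · have : {z | z ∈ L s ↔ s ∈ S} = L s := by
      ext z
      simp [hs]
    rw [this]
    exact hL s
  · have : {z | z ∈ L s ↔ s ∈ S} = (L s)ᶜ := by
      ext z
      simp [hs]
    rw [this]
    exact (hL s).compl

theorem typ_disjoint {G Z : Type} (L : G → Set Z) {S T : Finset G} (h : S ≠ T) :
    Disjoint (typ L S) (typ L T) := by
  rw [Set.disjoint_left]
  intro z hz hz'
  apply h
  ext s
  exact (hz s).symm.trans (hz' s)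

theorem tsum_ite_mem {G : Type} (S : Finset G) (c : ENNReal) [DecidableEq G] :
    ∑' s : G, (if s ∈ S then c else 0) = (S.card : ENNReal) * c := by
  rw [tsum_eq_sum (s := S)]
  · rw [Finset.sum_ite_mem, Finset.inter_self, Finset.sum_const, nsmul_eq_mul]
  · intro b hb
    simp [hb]

theorem tsum_card_typ_le {G Z : Type} [Countable G] [MeasurableSpace Z] {μ : Measure Z}
    (L : G → Set Z) (hL : ∀ s, MeasurableSet (L s)) :
    ∑' S : Finset G, (S.card : ENNReal) * μ (typ L S) ≤ cost μ L := by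
  classical
  have h1 : ∀ S : Finset G, (S.card : ENNReal) * μ (typ L S) =
      ∑' s : G, (if s ∈ S then μ (typ L S) else 0) := fun S => (tsum_ite_mem S _).symm
  simp_rw [h1]
  rw [ENNReal.tsum_comm]
  refine ENNReal.tsum_le_tsum fun s => ?_
  have h2 : ∀ S : Finset G, (if s ∈ S then μ (typ L S) else 0) =
      μ (if s ∈ S then typ L S else ∅) := by
    intro S
    split_ifs
    · rfl
    · simp
  simp_rw [h2]
  rw [← measure_iUnion]
  · refine measure_mono ?_
    intro z hz
    obtain ⟨S, hS⟩ := mem_iUnion.1 hz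
    split_ifs at hS with hs
    · exact (hS s).2 hs
    · exact absurd hS (notMem_empty z)
  · intro S T hST
    simp only [Function.onFun]
    split_ifs
    · exact typ_disjoint L hST
    all_goals simp
  · intro S
    split_ifs
    · exact measurable_typ hL S
    · exact MeasurableSet.empty

theorem cost_diff_le {G Z : Type} [Countable G] [MeasurableSpace Z] {μ : Measure Z}
    (L : G → Set Z) (hfin : cost μ L ≠ ⊤) (𝓕 : Finset (Finset G)) :
    cost μ (fun s => L s \ ⋃ S ∈ 𝓕, typ L S) ≤
      ∑' S : {S : Finset G // S ∉ 𝓕}, ((S : Finset G).card : ENNReal) * μ (typ L S) := by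
  classical
  have hae : ∀ᵐ z ∂μ, {s | z ∈ L s}.Finite := by
    have := ae_finite_setOf_mem (μ := μ) (s := L) hfin
    exact this
  have h1 : ∀ S : {S : Finset G // S ∉ 𝓕}, ((S : Finset G).card : ENNReal) * μ (typ L S) =
      ∑' s : G, (if s ∈ (S : Finset G) then μ (typ L S) else 0) :=
    fun S => (tsum_ite_mem (S : Finset G) _).symm
  simp_rw [h1]
  rw [ENNReal.tsum_comm]
  refine ENNReal.tsum_le_tsum fun s => ?_
  have h2 : ∀ S : {S : Finset G // S ∉ 𝓕},
      (if s ∈ (S : Finset G) then μ (typ L S) else 0) =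
        μ (if s ∈ (S : Finset G) then typ L S else ∅) := by
    intro S
    split_ifs
    · rfl
    · simp
  simp_rw [h2]
  refine le_trans ?_ (measure_iUnion_le _)
  refine measure_mono_ae ?_
  filter_upwards [hae] with z hz hzs
  refine mem_iUnion.2 ⟨⟨hz.toFinset, ?_⟩, ?_⟩
  · intro hmem
    apply hzs.2
    refine mem_iUnion₂.2 ⟨hz.toFinset, hmem, ?_⟩
    intro t
    simp
  · have hs : s ∈ hz.toFinset := by
      simpa using hzs.1
    simp only [hs, if_true]
    intro t
    simp

theorem exists_types {G Z : Type} [Countable G] [MeasurableSpace Z] {μ : Measure Z}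
    (L : G → Set Z) (hL : ∀ s, MeasurableSet (L s)) (hfin : cost μ L ≠ ⊤) (δ : ENNReal)
    (hδ : δ ≠ 0) :
    ∃ 𝓕 : Finset (Finset G), ∑ S ∈ 𝓕, (S.card : ENNReal) * μ (typ L S) ≤ cost μ L ∧
      cost μ (fun s => L s \ ⋃ S ∈ 𝓕, typ L S) ≤ δ := by
  have htot := tsum_card_typ_le (μ := μ) L hL
  have hne : ∑' S : Finset G, (S.card : ENNReal) * μ (typ L S) ≠ ⊤ :=
    ne_top_of_le_ne_top hfin htot
  have hlim := ENNReal.tendsto_tsum_compl_atTop_zero hne
  have hev := (hlim.eventually (gt_mem_nhds (pos_iff_ne_zero.2 hδ))).exists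
  obtain ⟨𝓕, h𝓕⟩ := hev
  refine ⟨𝓕, (ENNReal.sum_le_tsum 𝓕).trans htot, ?_⟩
  exact (cost_diff_le L hfin 𝓕).trans h𝓕.le

end RLim
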