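import Pool.Agent.Lib.MP_354e85_al.RL.Pull
import Pool.Agent.Lib.MP_354e85_al.RL.Types
import Pool.Agent.Lib.MP_354e85_al.RL.Perc

/-! Replacing the loops by percolated loops over a product. -/

open MeasureTheory Set

namespace RLim

section defs

variable {G : Type} [Group G] {Z V : Type}

/-- The new graphing on `Z × V`. -/
def newE (actV : G → V → V) (Y : Set Z) (P L : G → Set Z) (S₀ : Finset G)
    (𝓕 : Finset (Finset G)) (κ : G → V → ℕ) : G → Set (Z × V) :=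
  fun g => {p | p.1 ∈ P g ∨ (g ∈ S₀ ∧ p.1 ∈ Y) ∨ (p.1 ∈ L g ∧ p.1 ∉ ⋃ S ∈ 𝓕, typ L S) ∨
    ∃ S ∈ 𝓕, g ∈ S ∧ p.1 ∈ typ L S ∧
      p.2 ∈ kept actV (Subgroup.closure (S₀ : Set G)) S κ g}

/-- A loop of `L` is generated by the new graphing. -/
theorem conn_newE {actZ : G → Z → Z} {actV : G → V → V} (honeZ : ∀ z, actZ 1 z = z)
    (honeV : ∀ u, actV 1 u = u) (hmulZ : ∀ g h z, actZ (g * h) z = actZ g (actZ h z))
    (hmulV : ∀ g h u, actV (g * h) u = actV g (actV h u)) (N : Subgroup G)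
    (hN : ∀ n ∈ N, ∀ z, actZ n z = z) (Y : Set Z) (P L : G → Set Z)
    (hLN : ∀ s, s ∉ N → L s = ∅) (hLY : ∀ s, L s ⊆ Y) (S₀ : Finset G)
    (hS₀ : ∀ s ∈ S₀, s ∈ N) (𝓕 : Finset (Finset G)) (κ : G → V → ℕ) (s : G) (z : Z) (u : V)
    (hz : z ∈ L s) :
    Conn (fun g (p : Z × V) => (actZ g p.1, actV g p.2)) (newE actV Y P L S₀ 𝓕 κ) (z, u) 1 s := by
  sorry

end defs

end RLim
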