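import Pool.Agent.Lib.MP_354e85_al.RL.ReplA
import Pool.Agent.Lib.MP_354e85_al.RL.Forest

open MeasureTheory Set

namespace RLim

section meas

variable {G : Type} [Group G] [Countable G] {Z V : Type} [MeasurableSpace Z] [MeasurableSpace V]
  {μ : Measure Z} {ν : Measure V} [IsProbabilityMeasure μ] [IsProbabilityMeasure ν]

theorem newE_eq {G Z V : Type} [Group G] (actV : G → V → V) (Y : Set Z) (P L : G → Set Z)
    (S₀ : Finset G) (𝓕 : Finset (Finset G)) (κ : G → V → ℕ) (g : G) :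
    newE actV Y P L S₀ 𝓕 κ g =
      (((P g ×ˢ univ) ∪ ({x | g ∈ S₀ ∧ x ∈ Y} ×ˢ univ)) ∪
        ((L g \ ⋃ S ∈ 𝓕, typ L S) ×ˢ univ)) ∪
      ⋃ S ∈ 𝓕, ({x | g ∈ S ∧ x ∈ typ L S} ×ˢ
        kept actV (Subgroup.closure (S₀ : Set G)) S κ g) := by
  ext ⟨x, u⟩
  simp only [newE, mem_ofPred_eq, mem_union, mem_prod, mem_univ, and_true, mem_sdiff, mem_iUnion,
    exists_prop]
  tauto

theorem measurable_newE (β : PA G ν) {Y : Set Z} (hY : MeasurableSet Y) {P L : G → Set Z}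
    (hP : ∀ s, MeasurableSet (P s)) (hL : ∀ s, MeasurableSet (L s)) (S₀ : Finset G)
    (𝓕 : Finset (Finset G)) {κ : G → V → ℕ} (hκ : ∀ g j, MeasurableSet {u | κ g u = j}) (g : G) :
    MeasurableSet (newE β.act Y P L S₀ 𝓕 κ g) := by
  rw [newE_eq]
  have hU : MeasurableSet (⋃ S ∈ 𝓕, typ L S) :=
    Finset.measurableSet_biUnion 𝓕 fun S _ => measurable_typ hL S
  have h2 : MeasurableSet {x | g ∈ S₀ ∧ x ∈ Y} := by
    by_cases hg : g ∈ S₀
    · simpa [hg] using hY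
    · simp [hg]
  refine MeasurableSet.union (MeasurableSet.union (MeasurableSet.union
    ((hP g).prod MeasurableSet.univ) (h2.prod MeasurableSet.univ))
    (((hL g).diff hU).prod MeasurableSet.univ)) ?_
  refine Finset.measurableSet_biUnion 𝓕 fun S _ => ?_
  refine MeasurableSet.prod ?_ (measurable_kept β _ S hκ g)
  by_cases hg : g ∈ S
  · simpa [hg] using measurable_typ hL S
  · simp [hg]

/-- The measure of one set of the new graphing. -/
theorem measure_newE_le (β : PA G ν) (Y : Set Z) (P L : G → Set Z) (S₀ : Finset G)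
    (𝓕 : Finset (Finset G)) (κ : G → V → ℕ) (g : G) :
    (μ.prod ν) (newE β.act Y P L S₀ 𝓕 κ g) ≤
      μ (P g) + μ {x | g ∈ S₀ ∧ x ∈ Y} + μ (L g \ ⋃ S ∈ 𝓕, typ L S) +
        ∑ S ∈ 𝓕, μ {x | g ∈ S ∧ x ∈ typ L S} *
          ν (kept β.act (Subgroup.closure (S₀ : Set G)) S κ g) := by
  rw [newE_eq]
  refine (measure_union_le _ _).trans (add_le_add ?_ ?_)
  · refine (measure_union_le _ _).trans (add_le_add ?_ ?_)
    · refine (measure_union_le _ _).trans (add_le_add ?_ ?_)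
      · rw [Measure.prod_prod, measure_univ, mul_one]
      · rw [Measure.prod_prod, measure_univ, mul_one]
    · rw [Measure.prod_prod, measure_univ, mul_one]
  · refine (measure_biUnion_finset_le 𝓕 _).trans (Finset.sum_le_sum fun S _ => ?_)
    rw [Measure.prod_prod]

theorem tsum_mem (S₀ : Finset G) (Y : Set Z) (f : G → ENNReal) :
    ∑' g, μ {x | g ∈ S₀ ∧ x ∈ Y} * f g = μ Y * ∑ g ∈ S₀, f g := by
  rw [tsum_eq_sum (s := S₀), Finset.mul_sum]
  · refine Finset.sum_congr rfl fun g hg => ?_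
    simp [hg]
  · intro g hg
    simp [hg]

theorem cost_newE_aux (β : PA G ν) (Y : Set Z) (P L : G → Set Z) (S₀ : Finset G)
    (𝓕 : Finset (Finset G)) (κ : G → V → ℕ) :
    cost (μ.prod ν) (newE β.act Y P L S₀ 𝓕 κ) ≤
      cost μ P + (S₀.card : ENNReal) * μ Y + cost μ (fun s => L s \ ⋃ S ∈ 𝓕, typ L S) +
        ∑ S ∈ 𝓕, μ (typ L S) *
          ∑ g ∈ S, ν (kept β.act (Subgroup.closure (S₀ : Set G)) S κ g) := by
  unfold cost
  refine (ENNReal.tsum_le_tsum fun g => measure_newE_le β Y P L S₀ 𝓕 κ g).trans ?_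
  rw [ENNReal.tsum_add, ENNReal.tsum_add, ENNReal.tsum_add]
  have h1 : ∑' g, μ {x | g ∈ S₀ ∧ x ∈ Y} = (S₀.card : ENNReal) * μ Y := by
    have := tsum_mem (μ := μ) S₀ Y (fun _ => 1)
    simp only [mul_one, Finset.sum_const, nsmul_eq_mul] at this
    rw [this, mul_comm]
  have h2 : ∑' g, ∑ S ∈ 𝓕, μ {x | g ∈ S ∧ x ∈ typ L S} *
        ν (kept β.act (Subgroup.closure (S₀ : Set G)) S κ g) =
      ∑ S ∈ 𝓕, μ (typ L S) *
          ∑ g ∈ S, ν (kept β.act (Subgroup.closure (S₀ : Set G)) S κ g) := by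
    rw [Summable.tsum_finsetSum fun S _ => ENNReal.summable]
    refine Finset.sum_congr rfl fun S _ => ?_
    exact tsum_mem S (typ L S) _
  rw [h1, h2]

/-- The points with a nonempty finite type have total measure at most that of `Y`. -/
theorem sum_typ_le {Y : Set Z} {L : G → Set Z} (hL : ∀ s, MeasurableSet (L s))
    (hLY : ∀ s, L s ⊆ Y) (𝓕 : Finset (Finset G)) :
    ∑ S ∈ 𝓕, (if S.card = 0 then 0 else μ (typ L S)) ≤ μ Y := by
  have h1 : ∑ S ∈ 𝓕, (if S.card = 0 then 0 else μ (typ L S)) =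
      ∑ S ∈ 𝓕.filter (fun S => ¬ S.card = 0), μ (typ L S) := by
    rw [Finset.sum_filter]
    refine Finset.sum_congr rfl fun S _ => ?_
    by_cases hS : S.card = 0 <;> simp [hS]
  rw [h1, ← measure_biUnion_finset]
  · refine measure_mono ?_
    intro z hz
    simp only [mem_iUnion, Finset.mem_filter, exists_prop] at hz
    obtain ⟨S, ⟨-, hS⟩, hz⟩ := hz
    obtain ⟨s, hs⟩ := Finset.card_pos.1 (Nat.pos_of_ne_zero hS)
    exact hLY s ((hz s).2 hs)
  · intro S _ T _ hST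
    exact typ_disjoint L hST
  · intro S _
    exact measurable_typ hL S

theorem cost_newE (β : PA G ν) {Y : Set Z} (hY : MeasurableSet Y) {P L : G → Set Z}
    (hP : ∀ s, MeasurableSet (P s)) (hL : ∀ s, MeasurableSet (L s)) (N : Subgroup G)
    (hLN : ∀ s, s ∉ N → L s = ∅) (hLY : ∀ s, L s ⊆ Y) (S₀ : Finset G)
    (𝓕 : Finset (Finset G)) {κ : G → V → ℕ} (hκ : ∀ g j, MeasurableSet {u | κ g u = j})
    (hpair : ∀ S ∈ 𝓕, (∀ s ∈ S, s ∈ N) → ∀ c ∈ S, ∀ d ∈ S, c ≠ d →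
      ν (kept β.act (Subgroup.closure (S₀ : Set G)) S κ c) +
        ν (kept β.act (Subgroup.closure (S₀ : Set G)) S κ d) ≤ 1) :
    2 * cost (μ.prod ν) (newE β.act Y P L S₀ 𝓕 κ) ≤
      2 * cost μ P + 2 * ((S₀.card : ENNReal) * μ Y) +
        2 * cost μ (fun s => L s \ ⋃ S ∈ 𝓕, typ L S) +
        ∑ S ∈ 𝓕, (S.card : ENNReal) * μ (typ L S) + μ Y := by
  classical
  have key : ∀ S ∈ 𝓕, 2 * (μ (typ L S) *
      ∑ g ∈ S, ν (kept β.act (Subgroup.closure (S₀ : Set G)) S κ g)) ≤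
      (S.card : ENNReal) * μ (typ L S) + (if S.card = 0 then 0 else μ (typ L S)) := by
    intro S hS
    by_cases h0 : S.card = 0
    · rw [Finset.card_eq_zero] at h0
      subst h0
      simp
    rw [if_neg h0]
    by_cases ht : typ L S = ∅
    · simp [ht]
    obtain ⟨z, hz⟩ := nonempty_iff_ne_empty.2 ht
    have hN : ∀ s ∈ S, s ∈ N := by
      intro s hs
      by_contra hn
      have := (hz s).2 hs
      rw [hLN s hn] at this
      exact this
    have h1 := sum_pairs_le S (fun g => ν (kept β.act (Subgroup.closure (S₀ : Set G)) S κ g))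
      (fun _ _ => prob_le_one) (hpair S hS hN)
    calc 2 * (μ (typ L S) * ∑ g ∈ S, ν (kept β.act (Subgroup.closure (S₀ : Set G)) S κ g))
        = μ (typ L S) *
          (2 * ∑ g ∈ S, ν (kept β.act (Subgroup.closure (S₀ : Set G)) S κ g)) := by ring
      _ ≤ μ (typ L S) * ((S.card : ENNReal) + 1) := by gcongr
      _ = (S.card : ENNReal) * μ (typ L S) + μ (typ L S) := by ring
  have hsum : 2 * ∑ S ∈ 𝓕, μ (typ L S) *
        ∑ g ∈ S, ν (kept β.act (Subgroup.closure (S₀ : Set G)) S κ g) ≤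
      ∑ S ∈ 𝓕, (S.card : ENNReal) * μ (typ L S) + μ Y := by
    rw [Finset.mul_sum]
    refine (Finset.sum_le_sum key).trans ?_
    rw [Finset.sum_add_distrib]
    gcongr
    exact sum_typ_le hL hLY 𝓕
  calc 2 * cost (μ.prod ν) (newE β.act Y P L S₀ 𝓕 κ)
      ≤ 2 * (cost μ P + (S₀.card : ENNReal) * μ Y +
        cost μ (fun s => L s \ ⋃ S ∈ 𝓕, typ L S) +
        ∑ S ∈ 𝓕, μ (typ L S) *
          ∑ g ∈ S, ν (kept β.act (Subgroup.closure (S₀ : Set G)) S κ g)) := by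
        gcongr
        exact cost_newE_aux (μ := μ) β Y P L S₀ 𝓕 κ
    _ = 2 * cost μ P + 2 * ((S₀.card : ENNReal) * μ Y) +
        2 * cost μ (fun s => L s \ ⋃ S ∈ 𝓕, typ L S) +
        2 * ∑ S ∈ 𝓕, μ (typ L S) *
          ∑ g ∈ S, ν (kept β.act (Subgroup.closure (S₀ : Set G)) S κ g) := by ring
    _ ≤ _ := by
        rw [add_assoc (2 * cost μ P + 2 * ((S₀.card : ENNReal) * μ Y) +
          2 * cost μ (fun s => L s \ ⋃ S ∈ 𝓕, typ L S))]
        gcongr

end meas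

end RLim
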