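import Pool.Agent.Lib.MP_354e85_al.RL.ReplA

open MeasureTheory Set

namespace RLim

section meas

variable {G : Type} [Group G] [Countable G] {Z V : Type} [MeasurableSpace Z] [MeasurableSpace V]
  {μ : Measure Z} {ν : Measure V} [IsProbabilityMeasure μ] [IsProbabilityMeasure ν]

theorem gen_newE (α : PA G μ) (β : PA G ν) (N : Subgroup G) (hN : ∀ n ∈ N, ∀ z, α.act n z = z)
    {Y : Set Z} {P L : G → Set Z} (hLN : ∀ s, s ∉ N → L s = ∅)
    (hLY : ∀ s, L s ⊆ Y) (S₀ : Finset G) (hS₀ : ∀ s ∈ S₀, s ∈ N) (𝓕 : Finset (Finset G))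
    (κ : G → V → ℕ) (hgen : Gen μ α.act (fun s => P s ∪ L s)) :
    Gen (μ.prod ν) (α.prod β).act (newE β.act Y P L S₀ 𝓕 κ) := by
  have h1 : Gen (μ.prod ν) (α.prod β).act (pull Prod.fst (fun s => P s ∪ L s)) :=
    gen_pull measurePreserving_fst (fun g w => rfl) hgen
  refine Gen.bind (α := α.prod β) (Filter.Eventually.of_forall ?_) h1
  rintro ⟨z, u⟩ s hz
  rcases hz with hz | hz
  · have h2 : (α.prod β).act 1 (z, u) ∈ newE β.act Y P L S₀ 𝓕 κ s := by
      rw [(α.prod β).one]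
      exact Or.inl hz
    have h3 := Conn.of_edge (act := (α.prod β).act) (g := 1) h2
    rwa [mul_one] at h3
  · exact conn_newE α.one β.one α.mul β.mul N hN Y P L hLN hLY S₀ hS₀ 𝓕 κ s z u hz

end meas

end RLim
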