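import Pool.Agent.Lib.MP_354e85_al.RL.Basic
import Pool.Agent.Lib.MP_354e85_al.Rank

/-! A small complete section, on which `N` acts trivially. -/

open MeasureTheory Set

namespace RLim

/-- The Bernoulli shift of `G` over the quotient `G / N`. -/
noncomputable def bernPA {G : Type} [Group G] (N : Subgroup G) [N.Normal] :
    PA G (Pool.Agent.Lib.MP_354e85_al.bern (G ⧸ N)) where
  act := fun g u q => u ((g : G ⧸ N)⁻¹ * q)
  one := by
    intro u
    funext q
    simp
  mul := by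
    intro g h u
    funext q
    simp [mul_assoc]
  mp := fun g => Pool.Agent.Lib.MP_354e85_al.bern_shift (g : G ⧸ N)

theorem bern_le_null {I : Type} [Infinite I] (w : ℝ) (hw : 0 < w) :
    Pool.Agent.Lib.MP_354e85_al.bern I {u | ∀ q, w < u q} = 0 := by
  have := Pool.Agent.Lib.MP_354e85_al.prob01
  have hr : (volume.restrict (Icc (0 : ℝ) 1)) (Ioi w) < 1 := by
    rw [Measure.restrict_apply measurableSet_Ioi]
    have hsub : Ioi w ∩ Icc (0 : ℝ) 1 ⊆ Icc w 1 := by
      rintro x ⟨h1, h2⟩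
      exact ⟨le_of_lt h1, h2.2⟩
    refine lt_of_le_of_lt (measure_mono hsub) ?_
    rw [Real.volume_Icc]
    rw [← ENNReal.ofReal_one]
    exact (ENNReal.ofReal_lt_ofReal_iff one_pos).2 (by linarith)
  have hle : ∀ n : ℕ, Pool.Agent.Lib.MP_354e85_al.bern I {u | ∀ q, w < u q} ≤
      ((volume.restrict (Icc (0 : ℝ) 1)) (Ioi w)) ^ n := by
    intro n
    obtain ⟨s, hs⟩ := Infinite.exists_subset_card_eq I n
    have hsub : {u : I → ℝ | ∀ q, w < u q} ⊆ Set.pi (s : Set I) (fun _ => Ioi w) := by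
      intro u hu q _
      exact hu q
    refine (measure_mono hsub).trans (le_of_eq ?_)
    unfold Pool.Agent.Lib.MP_354e85_al.bern
    rw [Measure.infinitePi_pi _ (fun _ _ => measurableSet_Ioi), Finset.prod_const, hs]
  have ht := ENNReal.tendsto_pow_atTop_nhds_zero_of_lt_one hr
  exact le_antisymm (ge_of_tendsto' ht hle) bot_le

/-- A small complete section. -/
theorem exists_section {G : Type} [Group G] [Countable G] (N : Subgroup G) [N.Normal]
    [Infinite (G ⧸ N)] (w : ℝ) (hw : 0 < w) (hw1 : w ≤ 1) :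
    ∃ (U : Type) (_ : MeasurableSpace U) (_ : StandardBorelSpace U) (ν : Measure U)
      (_ : IsProbabilityMeasure ν) (β : PA G ν) (Y : Set U),
      MeasurableSet Y ∧ ν Y ≤ ENNReal.ofReal w ∧ (∀ n ∈ N, ∀ u, β.act n u = u) ∧
      (∀ᵐ u ∂ν, ∃ g, β.act g u ∈ Y) := by
  have := Pool.Agent.Lib.MP_354e85_al.prob01
  have hc : Countable (G ⧸ N) := (QuotientGroup.mk_surjective (s := N)).countable
  refine ⟨(G ⧸ N) → ℝ, inferInstance, inferInstance,
    Pool.Agent.Lib.MP_354e85_al.bern (G ⧸ N), inferInstance, bernPA N,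
    {u | u 1 ≤ w}, ?_, ?_, ?_, ?_⟩
  · exact measurableSet_le (measurable_pi_apply _) measurable_const
  · have h1 : Pool.Agent.Lib.MP_354e85_al.bern (G ⧸ N)
        ((fun u : (G ⧸ N) → ℝ => u 1) ⁻¹' (Iic w)) ≤ ENNReal.ofReal w := by
      rw [← Measure.map_apply (measurable_pi_apply _) measurableSet_Iic]
      unfold Pool.Agent.Lib.MP_354e85_al.bern
      rw [Measure.infinitePi_map_eval, Measure.restrict_apply measurableSet_Iic]
      have hsub : Iic w ∩ Icc (0 : ℝ) 1 ⊆ Icc 0 w := by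
        rintro x ⟨h1, h2⟩
        exact ⟨h2.1, h1⟩
      refine (measure_mono hsub).trans ?_
      rw [Real.volume_Icc, sub_zero]
    exact h1
  · intro n hn u
    have h1 : (n : G ⧸ N) = 1 := (QuotientGroup.eq_one_iff n).2 hn
    funext q
    change u ((n : G ⧸ N)⁻¹ * q) = u q
    rw [h1, inv_one, one_mul]
  · have h0 := bern_le_null (I := G ⧸ N) w hw
    have h1 : ∀ᵐ u ∂(Pool.Agent.Lib.MP_354e85_al.bern (G ⧸ N)), ¬ ∀ q, w < u q := by
      rw [ae_iff]
      simpa using h0
    filter_upwards [h1] with u hu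
    push Not at hu
    obtain ⟨q, hq⟩ := hu
    obtain ⟨g, rfl⟩ := QuotientGroup.mk_surjective q
    refine ⟨g⁻¹, ?_⟩
    change u (((g⁻¹ : G) : G ⧸ N)⁻¹ * 1) ≤ w
    rw [mul_one, QuotientGroup.mk_inv, inv_inv]
    exact hq

end RLim
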