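import Pool.Agent.Lib.MP_354e85_al.RL.Step1
import Pool.Agent.Lib.MP_354e85_al.RL.Pair
import Pool.Agent.Lib.MP_354e85_al.RL.Classes
import Pool.Agent.Lib.MP_354e85_al.RL.ReplB
import Pool.Agent.Lib.MP_354e85_al.RL.ReplC

/-! The step: from level `k` to a deeper level. -/

open MeasureTheory Set

namespace RLim

open Pool.Agent.Lib.MP_354e85_al (CostGE)

/-- Finitely many nontrivial elements lie outside a deep member of the chain. -/
theorem step_avoid {G : Type} [Group G] (N : ℕ → Subgroup G) (hanti : Antitone N)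
    (hbot : ⨅ k, N k = ⊥) (k : ℕ) (D : Finset G) :
    ∃ m, k ≤ m ∧ ∀ g ∈ D, g ≠ 1 → g ∉ N m := by
  classical
  induction D using Finset.induction_on with
  | empty => exact ⟨k, le_refl k, by simp⟩
  | insert a D _ ih =>
    obtain ⟨m, hm, h⟩ := ih
    by_cases ha : a = 1
    · refine ⟨m, hm, fun g hg hg1 => ?_⟩
      rcases Finset.mem_insert.1 hg with h1 | h1
      · exact absurd (h1.trans ha) hg1
      · exact h g h1 hg1
    · have h2 : ∃ j, a ∉ N j := by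
        by_contra hcon
        push Not at hcon
        have h3 : a ∈ ⨅ k, N k := Subgroup.mem_iInf.2 hcon
        rw [hbot, Subgroup.mem_bot] at h3
        exact ha h3
      obtain ⟨j, hj⟩ := h2
      refine ⟨max m j, hm.trans (le_max_left _ _), fun g hg hg1 => ?_⟩
      rcases Finset.mem_insert.1 hg with h1 | h1
      · rw [h1]
        exact fun h4 => hj (hanti (le_max_right m j) h4)
      · exact fun h4 => h g h1 hg1 (hanti (le_max_left m j) h4)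

/-- The arithmetic of the step. -/
theorem step_arith (θ δ x w : ℝ) (hθ : 0 ≤ θ) (hδ : 0 < δ) (hw : 0 < w) (n : ℕ)
    (hw1 : w ≤ 1 / 2) (hw2 : 2 * ((n : ℝ) + 1) * w ≤ δ)
    (C P L R T Y Yc : ENNReal)
    (hC : 2 * C ≤ 2 * P + 2 * ((n : ENNReal) * Y) + 2 * R + T + Y)
    (hP : P ≤ ENNReal.ofReal (1 + θ)) (hL : L + Yc ≤ ENNReal.ofReal x)
    (hY : Y ≤ ENNReal.ofReal w) (hYY : Y + Yc = 1) (hR : R ≤ ENNReal.ofReal (δ / 2))
    (hT : T ≤ L) : C ≤ ENNReal.ofReal (1 + θ + (x - 1) / 2 + δ) := by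
  have h1 : L + 1 ≤ ENNReal.ofReal x + ENNReal.ofReal w := by
    calc L + 1 = L + Yc + Y := by rw [← hYY, add_comm Y Yc, add_assoc]
      _ ≤ ENNReal.ofReal x + ENNReal.ofReal w := add_le_add hL hY
  have hx : 0 ≤ x := by
    by_contra hcon
    rw [ENNReal.ofReal_of_nonpos (by linarith : x ≤ 0), zero_add] at h1
    have h2 : (1 : ENNReal) ≤ ENNReal.ofReal (1 / 2) :=
      le_add_self.trans (h1.trans (ENNReal.ofReal_le_ofReal hw1))
    rw [← ENNReal.ofReal_one, ENNReal.ofReal_le_ofReal_iff (by norm_num)] at h2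
    norm_num at h2
  rw [← ENNReal.ofReal_add hx hw.le] at h1
  have hxw : 1 ≤ x + w := by
    have h2 : (1 : ENNReal) ≤ ENNReal.ofReal (x + w) := le_add_self.trans h1
    rwa [ENNReal.one_le_ofReal] at h2
  have h2 : L ≤ ENNReal.ofReal (x + w - 1) := by
    rw [ENNReal.ofReal_sub _ zero_le_one, ENNReal.ofReal_one]
    exact ENNReal.le_sub_of_add_le_right ENNReal.one_ne_top h1
  have h3 : 2 * C ≤ 2 * ENNReal.ofReal (1 + θ + (x - 1) / 2 + δ) := by
    have e2 : (2 : ENNReal) = ENNReal.ofReal 2 := by norm_num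
    have en : (n : ENNReal) = ENNReal.ofReal n := by simp
    calc 2 * C ≤ 2 * P + 2 * ((n : ENNReal) * Y) + 2 * R + T + Y := hC
      _ ≤ 2 * ENNReal.ofReal (1 + θ) + 2 * ((n : ENNReal) * ENNReal.ofReal w) +
          2 * ENNReal.ofReal (δ / 2) + ENNReal.ofReal (x + w - 1) + ENNReal.ofReal w := by
        gcongr
        exact hT.trans h2
      _ = ENNReal.ofReal (2 * (1 + θ) + 2 * (n * w) + 2 * (δ / 2) + (x + w - 1) + w) := by
        rw [e2, en, ← ENNReal.ofReal_mul (by positivity), ← ENNReal.ofReal_mul (by positivity),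
          ← ENNReal.ofReal_mul (by positivity), ← ENNReal.ofReal_mul (by positivity),
          ← ENNReal.ofReal_add (by positivity) (by positivity),
          ← ENNReal.ofReal_add (by positivity) (by positivity),
          ← ENNReal.ofReal_add (by positivity) (by linarith),
          ← ENNReal.ofReal_add (by positivity) (by positivity)]
      _ ≤ ENNReal.ofReal (2 * (1 + θ + (x - 1) / 2 + δ)) :=
        ENNReal.ofReal_le_ofReal (by linarith)
      _ = 2 * ENNReal.ofReal (1 + θ + (x - 1) / 2 + δ) := by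
        rw [ENNReal.ofReal_mul (by norm_num), ← e2]
  exact (ENNReal.mul_le_mul_iff_right (by norm_num) (by norm_num)).1 h3

theorem step {G : Type} [Group G] [Countable G] (N : ℕ → Subgroup G) (hnorm : ∀ k, (N k).Normal)
    (hanti : Antitone N) (hbot : ⨅ k, N k = ⊥) (k : ℕ) (hinf : Infinite (G ⧸ N k)) (θ δ : ℝ)
    (hθ : 0 ≤ θ) (hδ : 0 < δ) (hcheap : haveI := hnorm k; ¬ CostGE (G ⧸ N k) θ)
    (hhub : Hub (N k)) (x : ℝ) (hval : Val (N k) x) :
    ∃ m, Val (N m) (1 + θ + (x - 1) / 2 + δ) := by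
  classical
  obtain ⟨S₀, hS₀, hpat⟩ := hhub
  obtain ⟨w, hw⟩ : ∃ w : ℝ, w = min (1 / 2) (δ / (2 * ((S₀.card : ℝ) + 1))) := ⟨_, rfl⟩
  have hn0 : (0 : ℝ) < 2 * ((S₀.card : ℝ) + 1) := by positivity
  have hw0 : 0 < w := by
    rw [hw]
    exact lt_min (by norm_num) (by positivity)
  have hw1 : w ≤ 1 / 2 := by rw [hw]; exact min_le_left _ _
  have hw2 : 2 * ((S₀.card : ℝ) + 1) * w ≤ δ := by
    have h1 : w ≤ δ / (2 * ((S₀.card : ℝ) + 1)) := by rw [hw]; exact min_le_right _ _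
    rw [le_div_iff₀ hn0] at h1
    linarith
  haveI := hnorm k
  obtain ⟨Z, hZ1, hZ2, μ, hμ, α, Y, P, L, hY, hYw, hP, hL, hNZ, hPc, hLc, hLN, hLY, hgen⟩ :=
    step1 (N k) θ w hw0 (by linarith) hcheap x hval
  have hLfin : cost μ L ≠ ⊤ :=
    ne_top_of_le_ne_top ENNReal.ofReal_ne_top (le_self_add.trans hLc)
  obtain ⟨𝓕, h𝓕1, h𝓕2⟩ := exists_types L hL hLfin (ENNReal.ofReal (δ / 2))
    (by rw [Ne, ENNReal.ofReal_eq_zero]; linarith)
  -- the patterns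
  have hB : ∀ p : G × G, ∃ B : Finset G, p.1 ∈ N k → p.2 ∈ N k →
      IsPat (Subgroup.closure (S₀ : Set G)) p.1 p.2 B := by
    intro p
    by_cases h : p.1 ∈ N k ∧ p.2 ∈ N k
    · obtain ⟨B, hB⟩ := hpat p.1 h.1 p.2 h.2
      exact ⟨B, fun _ _ => hB⟩
    · exact ⟨∅, fun h1 h2 => absurd ⟨h1, h2⟩ h⟩
  choose B hB using hB
  obtain ⟨U, hU⟩ : ∃ U : Finset G, U = 𝓕.biUnion id := ⟨_, rfl⟩
  obtain ⟨T₀, hT₀⟩ : ∃ T₀ : Finset (G × G), T₀ = (U ×ˢ U).filter (fun p => p.1 ≠ p.2) := ⟨_, rfl⟩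
  obtain ⟨T, hT⟩ : ∃ T : Finset (G × G × Finset G), T = T₀.image (fun p => (p.1, p.2, B p)) :=
    ⟨_, rfl⟩
  obtain ⟨D, hD⟩ : ∃ D : Finset G, D = T₀.biUnion (fun p =>
    (B p ×ˢ B p).image (fun q => q.1⁻¹ * q.2)) := ⟨_, rfl⟩
  obtain ⟨m, hkm, hm⟩ := step_avoid N hanti hbot k D
  haveI := hnorm m
  have hTm : ∀ t ∈ T, t.1 ≠ t.2.1 ∧ ∀ b ∈ t.2.2, ∀ b' ∈ t.2.2, b ≠ b' → b⁻¹ * b' ∉ N m := by
    intro t ht
    rw [hT, Finset.mem_image] at ht
    obtain ⟨p, hp, rfl⟩ := ht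
    have hp' := hp
    rw [hT₀, Finset.mem_filter] at hp'
    refine ⟨hp'.2, fun b hb b' hb' hbb => hm _ ?_ ?_⟩
    · rw [hD, Finset.mem_biUnion]
      exact ⟨p, hp, Finset.mem_image.2 ⟨(b, b'), Finset.mem_product.2 ⟨hb, hb'⟩, rfl⟩⟩
    · intro h1
      exact hbb (inv_mul_eq_one.1 h1)
  obtain ⟨V, hV1, hV2, ν, hν, β, κ, hκ, hNV, hdist⟩ := exists_classes (N m) T hTm
  have hpair : ∀ S ∈ 𝓕, (∀ s ∈ S, s ∈ N k) → ∀ c ∈ S, ∀ d ∈ S, c ≠ d →
      ν (kept β.act (Subgroup.closure (S₀ : Set G)) S κ c) +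
        ν (kept β.act (Subgroup.closure (S₀ : Set G)) S κ d) ≤ 1 := by
    intro S hS hSN c hc d hd hcd
    refine kept_pair β _ S hκ hc hd hcd (B (c, d)) (hB (c, d) (hSN c hc) (hSN d hd)) ?_
    refine hdist (c, d, B (c, d)) ?_
    rw [hT, Finset.mem_image]
    refine ⟨(c, d), ?_, rfl⟩
    rw [hT₀, Finset.mem_filter, Finset.mem_product, hU, Finset.mem_biUnion, Finset.mem_biUnion]
    exact ⟨⟨⟨S, hS, hc⟩, ⟨S, hS, hd⟩⟩, hcd⟩
  refine ⟨m, Z × V, inferInstance, inferInstance, μ.prod ν, inferInstance, α.prod β,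
    newE β.act Y P L S₀ 𝓕 κ, measurable_newE β hY hP hL S₀ 𝓕 hκ, ?_, ?_, ?_⟩
  · rintro n hn ⟨z, v⟩
    show (α.act n z, β.act n v) = (z, v)
    rw [hNZ n (hanti hkm hn), hNV n hn]
  · exact gen_newE α β (N k) hNZ hLN hLY S₀ hS₀ 𝓕 κ hgen
  · refine step_arith θ δ x w hθ hδ hw0 S₀.card hw1 hw2 _ (cost μ P) (cost μ L)
      (cost μ (fun s => L s \ ⋃ S ∈ 𝓕, typ L S))
      (∑ S ∈ 𝓕, (S.card : ENNReal) * μ (typ L S)) (μ Y) (μ Yᶜ)
      (cost_newE β hY hP hL (N k) hLN hLY S₀ 𝓕 hκ hpair) hPc hLc hYw ?_ h𝓕2 h𝓕1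
    rw [measure_add_measure_compl hY, measure_univ]

end RLim
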