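import Pool.Agent.Lib.MP_354e85_al.RL.Pull
import Pool.Agent.Lib.MP_354e85_al.Cost

/-! A cheap graphing of a free action of `G / N` gives a cheap graphing of an action of `G` on
which `N` acts trivially; it generates modulo `N`. -/

open MeasureTheory Set

namespace RLim

open Pool.Agent.Lib.MP_354e85_al (CostGE)

theorem exists_cheap {G : Type} [Group G] [Countable G] (N : Subgroup G) [N.Normal] {θ : ℝ}
    (h : ¬ CostGE (G ⧸ N) θ) :
    ∃ (μ : Measure ℝ) (_ : IsProbabilityMeasure μ) (α : PA G μ) (E : G → Set ℝ),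
      (∀ s, MeasurableSet (E s)) ∧ (∀ n ∈ N, ∀ z, α.act n z = z) ∧
      GenMod N μ α.act E ∧ cost μ E < ENNReal.ofReal (1 + θ) := by
  classical
  have hcount : Countable (G ⧸ N) :=
    Function.Surjective.countable (f := fun g : G => (g : G ⧸ N)) Quot.mk_surjective
  unfold CostGE at h
  push Not at h
  obtain ⟨a, h1, hmul, hmp, hfree, A, φ, hA, hφ, -, horb, hconn, hsum⟩ := h
  set lam := volume.restrict (Icc (0 : ℝ) 1) with hlam
  have hprob : IsProbabilityMeasure lam := ⟨by rw [hlam]; simp⟩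
  have hinv : ∀ g x, a g⁻¹ (a g x) = x := by
    intro g x
    rw [← hmul, inv_mul_cancel, h1]
  let F : ℕ → (G ⧸ N) → Set ℝ := fun i q => A i ∩ {x | φ i x = a q x}
  have hF : ∀ i q, MeasurableSet (F i q) := fun i q =>
    (hA _).inter (measurableSet_eq_fun (hφ _) (hmp _).measurable)
  have hdisj : ∀ i, Pairwise (fun g g' => AEDisjoint lam (F i g) (F i g')) := by
    intro i g g' hgg
    have hne : g⁻¹ * g' ≠ 1 := fun hc => hgg (inv_mul_eq_one.1 hc)
    refine measure_mono_null ?_ (hfree _ hne)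
    rintro x ⟨⟨-, hx⟩, ⟨-, hx'⟩⟩
    have hx2 : φ i x = a g x := hx
    have hx3 : φ i x = a g' x := hx'
    change a (g⁻¹ * g') x = x
    rw [hmul, ← hx3, hx2, hinv]
  have hUn : ∀ i, (⋃ g, F i g) = A i := by
    intro i
    ext x
    simp only [mem_iUnion]
    constructor
    · rintro ⟨g, hg⟩
      exact hg.1
    · intro hx
      obtain ⟨g, hg⟩ := horb i x hx
      exact ⟨g, hx, hg⟩
  have hmass : ∑' i, ∑' q, lam (F i q) = ∑' i, lam (A i) := by
    refine tsum_congr fun i => ?_
    rw [← measure_iUnion₀ (hdisj i) (fun g => (hF i g).nullMeasurableSet), hUn]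
  let E0 : (G ⧸ N) → Set ℝ := fun q => ⋃ i, F i q
  let E : G → Set ℝ := fun g => if (g : G ⧸ N).out = g then E0 (g : G ⧸ N) else ∅
  have hout : ∀ q : G ⧸ N, ((q.out : G) : G ⧸ N) = q := fun q => QuotientGroup.out_eq' q
  have hEout : ∀ q : G ⧸ N, E q.out = E0 q := by
    intro q
    change (if (((q.out : G) : G ⧸ N)).out = q.out then E0 ((q.out : G) : G ⧸ N) else ∅) = E0 q
    rw [hout, if_pos rfl]
  let act : G → ℝ → ℝ := fun g => a (g : G ⧸ N)
  have hamul : ∀ g k z, act (g * k) z = act g (act k z) := fun g k z =>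
    hmul (g : G ⧸ N) (k : G ⧸ N) z
  refine ⟨lam, hprob, ⟨act, fun z => h1 z, hamul, fun g => hmp _⟩, E, ?_, ?_, ?_, ?_⟩
  · intro s
    change MeasurableSet (if (s : G ⧸ N).out = s then E0 (s : G ⧸ N) else ∅)
    split_ifs
    · exact MeasurableSet.iUnion fun i => hF i _
    · exact MeasurableSet.empty
  · intro n hn z
    have : ((n : G) : G ⧸ N) = 1 := (QuotientGroup.eq_one_iff n).2 hn
    change a (n : G ⧸ N) z = z
    rw [this, h1]
  · have hf : ∀ᵐ x ∂lam, ∀ g : G ⧸ N, g ≠ 1 → a g x ≠ x := by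
      rw [ae_all_iff]
      intro g
      by_cases hg : g = 1
      · exact Filter.Eventually.of_forall fun x hne => (hne hg).elim
      · have := hfree g hg
        have h2 : ∀ᵐ x ∂lam, ¬ (a g x = x) := by
          rw [ae_iff]
          simpa using this
        filter_upwards [h2] with x hx _
        exact hx
    change ∀ᵐ z ∂lam, ∀ g, ∃ n ∈ N, Conn act E z 1 (n * g)
    filter_upwards [hf, hconn] with x hx hc g
    have hpath : ∀ z, Relation.ReflTransGen
        (fun y z => ∃ i, (y ∈ A i ∧ φ i y = z) ∨ (z ∈ A i ∧ φ i z = y)) x z →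
        ∃ k : G, act k x = z ∧ Conn act E x 1 k := by
      intro z hz
      induction hz with
      | refl => exact ⟨1, h1 x, Conn.refl _ _ _ _⟩
      | @tail b c _ hbc ih =>
        obtain ⟨k, hk, hgen⟩ := ih
        obtain ⟨i, ⟨hbA, hbc⟩ | ⟨hcA, hcb⟩⟩ := hbc
        · obtain ⟨m, hm⟩ := horb i b hbA
          refine ⟨m.out * k, ?_, hgen.trans (Conn.of_edge ?_)⟩
          · rw [hamul, hk]
            change a ((m.out : G) : G ⧸ N) b = c
            rw [hout, ← hm, hbc]
          · rw [hk, hEout]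
            exact mem_iUnion.2 ⟨i, hbA, hm⟩
        · obtain ⟨m, hm⟩ := horb i c hcA
          have hc2 : act ((m.out)⁻¹ * k) x = c := by
            rw [hamul, hk]
            change a (((m.out)⁻¹ : G) : G ⧸ N) b = c
            rw [QuotientGroup.mk_inv, hout, ← hcb, hm, hinv]
          refine ⟨(m.out)⁻¹ * k, hc2, hgen.trans (Conn.symm ?_)⟩
          have h3 : act ((m.out)⁻¹ * k) x ∈ E m.out := by
            rw [hc2, hEout]
            exact mem_iUnion.2 ⟨i, hcA, hm⟩
          have h4 := Conn.of_edge (act := act) (E := E) (z := x) (g := (m.out)⁻¹ * k)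
            (s := m.out) h3
          rwa [mul_inv_cancel_left] at h4
    obtain ⟨k, hk, hgen⟩ := hpath _ (hc (g : G ⧸ N))
    have hkg : ((k : G) : G ⧸ N) = (g : G ⧸ N) := by
      by_contra hne
      have hne' : ((k : G) : G ⧸ N)⁻¹ * (g : G ⧸ N) ≠ 1 := fun hc2 => hne (inv_mul_eq_one.1 hc2)
      apply hx _ hne'
      have hk' : a ((k : G) : G ⧸ N) x = a (g : G ⧸ N) x := hk
      rw [hmul, ← hk', hinv]
    refine ⟨k * g⁻¹, ?_, ?_⟩
    · rw [← QuotientGroup.eq_one_iff, QuotientGroup.mk_mul, QuotientGroup.mk_inv, hkg,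
        mul_inv_cancel]
    · rwa [inv_mul_cancel_right]
  · refine lt_of_le_of_lt ?_ hsum
    have hinj : Function.Injective (fun q : G ⧸ N => (q.out : G)) := by
      intro q q' hq
      have := congrArg (fun g : G => (g : G ⧸ N)) hq
      simpa [hout] using this
    have hsupp : Function.support (fun g : G => lam (E g)) ⊆ range (fun q : G ⧸ N => (q.out : G)) := by
      intro g hg
      by_cases hgo : (g : G ⧸ N).out = g
      · exact ⟨_, hgo⟩
      · exfalso
        apply hg
        change lam (if (g : G ⧸ N).out = g then E0 (g : G ⧸ N) else ∅) = 0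
        rw [if_neg hgo, measure_empty]
    change ∑' g, lam (E g) ≤ ∑' i, lam (A i)
    rw [← hinj.tsum_eq hsupp, ← hmass, ENNReal.tsum_comm]
    refine ENNReal.tsum_le_tsum fun q => ?_
    rw [hEout]
    exact measure_iUnion_le _

end RLim
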