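import Pool.Agent.Lib.MP_354e85_al.RL.Val
import Pool.Agent.Lib.MP_354e85_al.RL.Pull
import Pool.Agent.Lib.MP_354e85_al.RL.TransferB
import Pool.Agent.Lib.MP_354e85_al.RL.Decomp
import Pool.Agent.Lib.MP_354e85_al.RL.Section

/-! The first half of the step. -/

open MeasureTheory Set

namespace RLim

open Pool.Agent.Lib.MP_354e85_al (CostGE)

/-- Multiplying by the cheap action and the section, and decomposing. -/
theorem step1 {G : Type} [Group G] [Countable G] (N : Subgroup G) [N.Normal]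
    [Infinite (G ⧸ N)] (θ w : ℝ) (hw : 0 < w) (hw1 : w ≤ 1) (hcheap : ¬ CostGE (G ⧸ N) θ)
    (x : ℝ) (hval : Val N x) :
    ∃ (Z : Type) (_ : MeasurableSpace Z) (_ : StandardBorelSpace Z) (μ : Measure Z)
      (_ : IsProbabilityMeasure μ) (α : PA G μ) (Y : Set Z) (P L : G → Set Z),
      MeasurableSet Y ∧ μ Y ≤ ENNReal.ofReal w ∧ (∀ s, MeasurableSet (P s)) ∧
      (∀ s, MeasurableSet (L s)) ∧ (∀ n ∈ N, ∀ z, α.act n z = z) ∧
      cost μ P ≤ ENNReal.ofReal (1 + θ) ∧ cost μ L + μ Yᶜ ≤ ENNReal.ofReal x ∧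
      (∀ s, s ∉ N → L s = ∅) ∧ (∀ s, L s ⊆ Y) ∧ Gen μ α.act (fun s => P s ∪ L s) := by
  obtain ⟨Z, mZ, sZ, μ, pμ, α, E, hE, hNE, hgenE, hcE⟩ := hval
  obtain ⟨μc, pc, αc, F, hF, hNF, hgenF, hcF⟩ := exists_cheap N hcheap
  obtain ⟨U, mU, sU, ν, pν, β, Y, hY, hνY, hNU, hsec⟩ := exists_section N w hw hw1
  have e1 : MeasurePreserving (Prod.fst : Z × (ℝ × U) → Z) (μ.prod (μc.prod ν)) μ :=
    measurePreserving_fst
  have e2 : MeasurePreserving (Prod.snd : Z × (ℝ × U) → ℝ × U) (μ.prod (μc.prod ν))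
      (μc.prod ν) := measurePreserving_snd
  have e3 : MeasurePreserving (fun p : Z × (ℝ × U) => p.2.1) (μ.prod (μc.prod ν)) μc :=
    (measurePreserving_fst (μ := μc) (ν := ν)).comp e2
  have e4 : MeasurePreserving (fun p : Z × (ℝ × U) => p.2.2) (μ.prod (μc.prod ν)) ν :=
    (measurePreserving_snd (μ := μc) (ν := ν)).comp e2
  let γ : PA G (μ.prod (μc.prod ν)) := α.prod (αc.prod β)
  have hγ1 : ∀ g (p : Z × (ℝ × U)), (γ.act g p).1 = α.act g p.1 := fun g p => rfl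
  have hγ2 : ∀ g (p : Z × (ℝ × U)), (γ.act g p).2.1 = αc.act g p.2.1 := fun g p => rfl
  have hγ3 : ∀ g (p : Z × (ℝ × U)), (γ.act g p).2.2 = β.act g p.2.2 := fun g p => rfl
  have hN : ∀ n ∈ N, ∀ p, γ.act n p = p := by
    intro n hn p
    refine Prod.ext ?_ (Prod.ext ?_ ?_)
    · rw [hγ1]; exact hNE n hn _
    · rw [hγ2]; exact hNF n hn _
    · rw [hγ3]; exact hNU n hn _
  have hY' : MeasurableSet ((fun p : Z × (ℝ × U) => p.2.2) ⁻¹' Y) := e4.measurable hY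
  have hsec' : ∀ᵐ p ∂(μ.prod (μc.prod ν)),
      ∃ g, γ.act g p ∈ ((fun p : Z × (ℝ × U) => p.2.2) ⁻¹' Y) := by
    have h2 := e4.quasiMeasurePreserving.ae hsec
    filter_upwards [h2] with p hp
    exact hp
  obtain ⟨P, L, hP, hL, hcP, hcL, hLN, hLY, hgen⟩ := decomp N γ hN
    ((fun p : Z × (ℝ × U) => p.2.2) ⁻¹' Y) hY' hsec'
    (pull (Prod.fst : Z × (ℝ × U) → Z) E) (pull (fun p : Z × (ℝ × U) => p.2.1) F)
    (measurable_pull e1.measurable hE) (measurable_pull e3.measurable hF)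
    (gen_pull e1 hγ1 hgenE) (genMod_pull e3 hγ2 hgenF)
  refine ⟨Z × (ℝ × U), inferInstance, inferInstance, μ.prod (μc.prod ν), inferInstance, γ,
    (fun p : Z × (ℝ × U) => p.2.2) ⁻¹' Y, P, L, hY', ?_, hP, hL, hN, ?_, ?_, hLN, hLY, hgen⟩
  · rw [e4.measure_preimage hY.nullMeasurableSet]
    exact hνY
  · refine hcP.trans ?_
    rw [cost_pull e3 hF]
    exact hcF.le
  · refine hcL.trans ?_
    rw [cost_pull e1 hE]
    exact hcE

end RLim
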