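import Pool.Agent.Lib.MP_354e85_al.RL.Perc

/-! The two predicates of the iteration. -/

open MeasureTheory Set

namespace RLim

/-- There is an action on which `N` acts trivially, with a generating graphing of cost at most
`x`. -/
def Val {G : Type} [Group G] (N : Subgroup G) (x : ℝ) : Prop :=
  ∃ (Z : Type) (_ : MeasurableSpace Z) (_ : StandardBorelSpace Z) (μ : Measure Z)
    (_ : IsProbabilityMeasure μ) (α : PA G μ) (E : G → Set Z),
    (∀ s, MeasurableSet (E s)) ∧ (∀ n ∈ N, ∀ z, α.act n z = z) ∧ Gen μ α.act E ∧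
    cost μ E ≤ ENNReal.ofReal x

/-- There is a finite hub in `N` for which all pairs of elements of `N` have a pattern. -/
def Hub {G : Type} [Group G] (N : Subgroup G) : Prop :=
  ∃ S₀ : Finset G, (∀ s ∈ S₀, s ∈ N) ∧ ∀ c ∈ N, ∀ d ∈ N, ∃ B : Finset G,
    IsPat (Subgroup.closure (S₀ : Set G)) c d B

end RLim
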